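import Pool.Agent.T2h96.SM.Stm
import Pool.Agent.T2h61.PR.T_TOP
import Pool.Agent.Helper460_CSP.Bls

/-!
# (MAX) assembly
-/

set_option autoImplicit false

namespace Pool.Agent.T2h96.SM

open Matrix Pool.Agent.T2h61.PR Pool.Agent.T2h96.SN

namespace MAX

lemma jq_jp {n : ℕ} {Λ : Type} [Group Λ] {R : Type} [CommRing R] (ρ : Λ →* SLn n R) (i j : Fin n)
    {a : R} (h : a ∈ Jq ρ i j) : a ∈ Jp ρ i j := by
  obtain ⟨l, hl⟩ := h
  exact ⟨l, 1, by rw [one_smul, hl]⟩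

/-- The coloured version for finite families. -/
theorem fin (hX1 : S_X1) (hC : S_CHZ) (hPf : S_PERF) (hJL : S_JL) (hX3 : S_X3) (hX4 : S_X4)
    (hX5 : S_X5) (hXB : S_XB) (hINX : S_INX) (n : ℕ) (hn : 3 ≤ n) (ι Λ : Type) [Finite ι]
    [Group Λ] (x : ι → Λ) (κ : ι → Fin n) (hFG : Group.FG Λ) (hRF : RF Λ)
    (hFQ : SameFQ Λ (SLn n ℤ)) (hx : Subgroup.closure (Set.range x) = ⊤)
    (hN : ∀ (Q : Type) [Group Q] [Finite Q] (f : Λ →* Q), NilCol (fun t => f (x t)) κ)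
    (hO : ∃ i, ∃ γ ∈ Subgroup.closure (x '' {t | κ t ≠ i}), ¬ IsOfFinOrder γ) :
    Nonempty (Λ ≃* SLn n ℤ) := by
  haveI : NeZero n := ⟨by omega⟩
  have hperf := hPf n hn Λ hFG hFQ
  obtain ⟨R, _, _, κ', τ, c, ρ, hu, hρ⟩ :=
    hX1 n hn ι Λ x κ (hINX n hn ι Λ x κ hFG hRF hFQ hx hN hO)
  obtain ⟨K, _, _, ⟨φ⟩⟩ := hC R
  let ρK : Λ →* SLn n K := (Matrix.SpecialLinearGroup.map (n := Fin n) φ).comp ρ
  have hτ : φ τ ≠ 0 := (hu.map φ).ne_zero
  have hCX : CX x κ' (φ τ) (fun t => φ (c t)) ρK := by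
    obtain ⟨h1, ζ, h2⟩ := hρ
    refine ⟨fun k => ?_, fun t => φ (ζ t), fun t => ?_⟩
    · obtain ⟨t, ht, hc⟩ := h1 k
      refine ⟨t, ht, ?_⟩
      simp only [hc, wt]
      split_ifs <;> simp
    · have h3 : (ρK (x t) : Mn n K) = (ρ (x t) : Mn n R).map φ := rfl
      rw [h3, h2 t]
      ext i j
      simp only [Matrix.map_apply, Matrix.smul_apply, cy, Matrix.add_apply, Matrix.one_apply,
        Matrix.single_apply, smul_eq_mul, map_mul, map_add]
      split_ifs <;> simp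
  obtain ⟨hr, hc⟩ := hX3 n hn ι Λ hFG hFQ x κ' K (φ τ) (fun t => φ (c t)) ρK hτ hCX
  obtain ⟨τ', c', σ, hτ', hσ⟩ := hX4 n hn ι Λ x κ' hx hperf K (φ τ) (fun t => φ (c t)) ρK hτ hCX
    hr hc
  obtain ⟨hJ1, hJ2, hJ3⟩ := hJL n hn Λ ℚ σ
  have hw : ∀ k : Fin n, wt τ' k ∈ Jp σ (k + 1) k := by
    intro k
    obtain ⟨h1, ζ, h2⟩ := hσ
    obtain ⟨t, ht, hct⟩ := h1 k
    refine ⟨x t, ζ t, ?_⟩
    rw [h2 t, ht, hct]
    rfl
  obtain ⟨hJ4, hJ5⟩ := hJ3 τ' hw
  have hinf : (Set.range σ).Infinite := by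
    have h01 : (⟨0, by omega⟩ : Fin n) ≠ ⟨1, by omega⟩ := by
      intro h
      simpa using congrArg Fin.val h
    set i : Fin n := ⟨0, by omega⟩
    set j : Fin n := ⟨1, by omega⟩
    have h1 := hJ5 i j h01 _ (hJ4 i j h01)
    obtain ⟨l, hl⟩ := h1
    have hne : ww τ' i j * τ' ≠ 0 := by
      apply mul_ne_zero _ hτ'
      unfold ww
      split_ifs
      · exact hτ'
      · exact one_ne_zero
    have hpow : ∀ k : ℕ, (σ (l ^ k) : Mn n ℚ) =
        Matrix.transvection i j ((k : ℚ) * (ww τ' i j * τ')) := by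
      intro k
      induction k with
      | zero => simp [Matrix.transvection]
      | succ k ih =>
        rw [pow_succ, map_mul]
        show (σ (l ^ k) : Mn n ℚ) * (σ l : Mn n ℚ) = _
        rw [ih, hl, Matrix.transvection_mul_transvection_same i j h01]
        congr 1
        push_cast
        ring
    refine Set.infinite_of_injective_forall_mem (f := fun k : ℕ => σ (l ^ k)) ?_
      (fun k => ⟨l ^ k, rfl⟩)
    intro k k' hkk
    have h2 := congrArg (fun t : SLn n ℚ => (t : Mn n ℚ) i j) hkk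
    simp only at h2
    rw [hpow, hpow] at h2
    simp only [Matrix.transvection, Matrix.add_apply, Matrix.one_apply_ne h01,
      Matrix.single_apply_same, zero_add] at h2
    exact_mod_cast mul_right_cancel₀ hne h2
  obtain ⟨Θ, hΘ⟩ := hXB n hn ι Λ x κ' hx hperf τ' c' σ hτ' hσ (hX5 n hn Λ hFG hFQ σ hinf)
  have hsurj : Function.Surjective Θ := by
    rw [← MonoidHom.range_eq_top, eq_top_iff, ← Pool.Agent.H185.ZM.EE_eq_top]
    unfold Pool.Agent.H185.ZM.EE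
    rw [Subgroup.closure_le]
    rintro _ ⟨i, j, h, z, rfl⟩
    obtain ⟨l, hl⟩ := hΘ i j h
    refine ⟨l ^ z, ?_⟩
    rw [map_zpow, hl]
    have h1 := Pool.Agent.Helper460_CSP.tv_mul_zpow i j h 1 z
    rw [one_mul] at h1
    exact h1.symm
  exact ⟨MulEquiv.ofBijective Θ ⟨Pool.Agent.Helper460_PR.hopf hFG hRF hFQ Θ hsurj, hsurj⟩⟩

/-- an element of a closure is in the closure of a finite part -/
lemma fin_part {G ι : Type} [Group G] (f : ι → G) (S : Set ι) (g : G)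
    (hg : g ∈ Subgroup.closure (f '' S)) :
    ∃ T : Finset ι, (T : Set ι) ⊆ S ∧ g ∈ Subgroup.closure (f '' (T : Set ι)) := by
  classical
  induction hg using Subgroup.closure_induction with
  | mem x hx =>
    obtain ⟨i, hi, rfl⟩ := hx
    exact ⟨{i}, by simpa using hi, Subgroup.subset_closure ⟨i, by simp, rfl⟩⟩
  | one => exact ⟨∅, by simp, Subgroup.one_mem _⟩
  | mul x y _ _ hx hy =>
    obtain ⟨T1, h1, h1'⟩ := hx
    obtain ⟨T2, h2, h2'⟩ := hy
    refine ⟨T1 ∪ T2, by rw [Finset.coe_union]; exact Set.union_subset h1 h2,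
      Subgroup.mul_mem _ ?_ ?_⟩
    · exact Subgroup.closure_mono (Set.image_mono (by simp)) h1'
    · exact Subgroup.closure_mono (Set.image_mono (by simp)) h2'
  | inv x _ hx =>
    obtain ⟨T1, h1, h1'⟩ := hx
    exact ⟨T1, h1, Subgroup.inv_mem _ h1'⟩

end MAX

open MAX in
theorem t_MAX (hX1 : S_X1) (hC : S_CHZ) (hPf : S_PERF) (hJL : S_JL) (hX3 : S_X3) (hX4 : S_X4)
    (hX5 : S_X5) (hXB : S_XB) (hINX : S_INX) : S_MAX := by
  classical
  intro n hn Λ _ hFG hRF hFQ N hN hnil hO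
  obtain ⟨i0, γ, hγ, hγ0⟩ := hO
  let I : Type := Fin n × Λ
  let S : Set I := {t | t.2 ∈ N t.1}
  -- generators
  let x0 : S → Λ := fun t => t.1.2
  have hx0 : Subgroup.closure (Set.range x0) = ⊤ := by
    rw [eq_top_iff, ← hN, iSup_le_iff]
    intro i g hg
    exact Subgroup.subset_closure ⟨⟨(i, g), hg⟩, rfl⟩
  obtain ⟨T1, hT1⟩ := exists_finite_gen hFG x0 hx0
  have hcl : ∀ i, (⨆ j ∈ ({i}ᶜ : Set (Fin n)), N j) =
      Subgroup.closure (x0 '' {t | t.1.1 ≠ i}) := by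
    intro i
    apply le_antisymm
    · rw [iSup_le_iff]
      intro j
      rw [iSup_le_iff]
      intro hj g hg
      exact Subgroup.subset_closure ⟨⟨(j, g), hg⟩, hj, rfl⟩
    · rw [Subgroup.closure_le]
      rintro _ ⟨⟨⟨j, g⟩, hg⟩, hj, rfl⟩
      have h1 : N j ≤ ⨆ j ∈ ({i}ᶜ : Set (Fin n)), N j := le_iSup₂_of_le j hj le_rfl
      exact h1 hg
  rw [hcl i0] at hγ
  obtain ⟨T2, hT2, hT2'⟩ := fin_part x0 _ γ hγ
  let T : Finset S := T1 ∪ T2
  let x : T → Λ := fun t => x0 t.1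
  let κ : T → Fin n := fun t => t.1.1.1
  have hx : Subgroup.closure (Set.range x) = ⊤ := by
    rw [eq_top_iff, ← hT1]
    apply Subgroup.closure_mono
    rintro _ ⟨t, ht, rfl⟩
    exact ⟨⟨t, Finset.mem_union_left _ ht⟩, rfl⟩
  refine fin hX1 hC hPf hJL hX3 hX4 hX5 hXB hINX n hn T Λ x κ hFG hRF hFQ hx ?_ ?_
  · intro Q _ _ f i
    have h1 := hnil Q f i
    have h2 : Subgroup.closure ((fun t => f (x t)) '' {t | κ t ≠ i}) ≤
        (⨆ j ∈ ({i}ᶜ : Set (Fin n)), N j).map f := by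
      rw [hcl i, MonoidHom.map_closure]
      apply Subgroup.closure_mono
      rintro _ ⟨t, ht, rfl⟩
      exact ⟨x0 t.1, ⟨t.1, ht, rfl⟩, rfl⟩
    haveI := h1
    apply Subgroup.isNilpotent_of_ker_le_center (Subgroup.inclusion h2)
    rw [(MonoidHom.ker_eq_bot_iff _).2 (Subgroup.inclusion_injective h2)]
    exact bot_le
  · refine ⟨i0, γ, ?_, hγ0⟩
    refine Subgroup.closure_mono ?_ hT2'
    rintro _ ⟨t, ht, rfl⟩
    exact ⟨⟨t, Finset.mem_union_right _ ht⟩, hT2 ht, rfl⟩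

end Pool.Agent.T2h96.SM
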