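import Pool.Agent.T2h96.SM.Stm
import Pool.Agent.T2h96.SN.T_INTG

/-!
# Project SM, task CHZ
-/

set_option autoImplicit false

namespace Pool.Agent.T2h96.SM

theorem t_CHZ : S_CHZ := fun R _ _ => Pool.Agent.T2h96.SN.INTG.exists_field R

end Pool.Agent.T2h96.SM
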