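import Pool.Agent.T2h96.SM.Stm
import Pool.Agent.T2h96.SN.NFC

/-! Project SM, task CYC. -/

set_option autoImplicit false

namespace Pool.Agent.T2h96.SM

open Matrix Pool.Agent.T2h61.PR Pool.Agent.T2h96.SN

theorem t_CYC : S_CYC := by
  intro n _ F _ hn b s hT
  obtain ⟨π, hπ⟩ := NFC.cycle n s hT
  set b' : Module.Basis (Fin n) F (Fin n → F) := b.reindex π.symm with hb'
  have hb'k : ∀ k, b' k = b (π k) := by
    intro k
    rw [hb', Module.Basis.reindex_apply, Equiv.symm_symm]
  set e := Pi.basisFun F (Fin n) with he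
  refine ⟨π, ⟨e.toMatrix b', b'.toMatrix e, Module.Basis.toMatrix_mul_toMatrix_flip e b',
    Module.Basis.toMatrix_mul_toMatrix_flip b' e⟩, hπ, ?_⟩
  intro k
  rw [Matrix.mulVec_single_one, ← hb'k]
  funext i
  show e.toMatrix b' i k = b' k i
  rw [Module.Basis.toMatrix_apply, he, Pi.basisFun_repr]

end Pool.Agent.T2h96.SM
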