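import Pool.Agent.T2h96.SM.Stm

/-!
# (INX) infinitely many primes
-/

set_option autoImplicit false

namespace Pool.Agent.T2h96.SM

open Matrix Pool.Agent.T2h61.PR Pool.Agent.T2h96.SN

/-- for an element `γ` of infinite order there are surjections whose value at `γ` has an order with
large prime divisors -/
lemma INX.big (hP : S_PROG) (hE : S_EL) (hI : S_INJ) (hInf : S_INF) (n : ℕ) (hn : 3 ≤ n)
    (Λ : Type) [Group Λ] (hFG : Group.FG Λ) (hRF : RF Λ) (hFQ : SameFQ Λ (SLn n ℤ))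
    (γ : Λ) (hi : ¬ IsOfFinOrder γ) (B : ℕ) :
    ∃ (ℓ : ℕ) (_ : Fact ℓ.Prime) (f : Λ →* SLn n (ZMod ℓ)), B < ℓ ∧ Function.Surjective f ∧
      ¬ (∀ r : ℕ, r.Prime → r ∣ orderOf (f γ) → r ≤ n) := by
  obtain ⟨D, hD, hPD⟩ := hP n (by omega)
  have hne : γ ^ D ≠ 1 := fun h => hi (isOfFinOrder_iff_pow_eq_one.2 ⟨D, hD, h⟩)
  obtain ⟨q, hq, ρ, hρ, hρ1⟩ := hI n hn Λ hFG hRF hFQ _ hne
  have h1 := hInf n q (by omega) Λ ρ hρ
  let σ : Λ →* SLn n ℚ_[q] :=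
    (Matrix.SpecialLinearGroup.map (n := Fin n) (PadicInt.Coe.ringHom (p := q))).comp ρ
  have hσ : (Set.range σ).Infinite := by
    intro hfin
    apply h1
    have h2 : (((toU n q).comp ρ).range : Set (Mn n ℚ_[q])ˣ) =
        (Matrix.SpecialLinearGroup.toGL (n := Fin n) (R := ℚ_[q])) '' (Set.range σ) := by
      ext u
      constructor
      · rintro ⟨l, rfl⟩
        refine ⟨σ l, ⟨l, rfl⟩, ?_⟩
        apply Units.ext
        rfl
      · rintro ⟨_, ⟨l, rfl⟩, rfl⟩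
        refine ⟨l, ?_⟩
        apply Units.ext
        rfl
    have h3 := hfin.image (Matrix.SpecialLinearGroup.toGL (n := Fin n) (R := ℚ_[q]))
    rw [← h2] at h3
    exact h3
  have hσ1 : σ (γ ^ D) ≠ 1 := by
    intro h
    apply hρ1
    apply Subtype.ext
    ext a b
    have h4 := congrArg (fun t : SLn n ℚ_[q] => t.1 a b) h
    have h5 : (((ρ (γ ^ D)).1 a b : ℤ_[q]) : ℚ_[q]) = (1 : Mn n ℚ_[q]) a b := h4
    have h6 : (((1 : SLn n ℤ_[q]).1 a b : ℤ_[q]) : ℚ_[q]) = (1 : Mn n ℚ_[q]) a b := by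
      show (((1 : Mn n ℤ_[q]) a b : ℤ_[q]) : ℚ_[q]) = _
      rw [Matrix.one_apply, Matrix.one_apply]
      split_ifs <;> simp
    exact Subtype.ext (h5.trans h6.symm)
  obtain ⟨B', hB'⟩ := hE n hn Λ hFG hFQ ℚ_[q] σ hσ _ hσ1
  obtain ⟨ℓ, hℓ, hℓp, hℓD⟩ := hPD (max B B')
  obtain ⟨f, hf, hf1⟩ := hB' ℓ hℓp (lt_of_le_of_lt (le_max_right _ _) hℓ)
  refine ⟨ℓ, ⟨hℓp⟩, f, lt_of_le_of_lt (le_max_left _ _) hℓ, hf, fun h => ?_⟩
  apply hf1
  rw [map_pow]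
  exact hℓD (f γ) h

theorem t_INX (hT : S_TXP) (hS : S_SMO) (hP : S_PROG) (hE : S_EL) (hI : S_INJ) (hInf : S_INF) :
    S_INX := by
  intro n _ hn ι Λ _ x κ hFG hRF hFQ hx hN hO B
  obtain ⟨i, γ, hγ, hi⟩ := hO
  obtain ⟨ℓ, hℓ, f, hB, hf, hno⟩ := INX.big hP hE hI hInf n hn Λ hFG hRF hFQ γ hi B
  refine ⟨ℓ, hℓ, f, hB, ?_⟩
  have hfin : Finite (SLn n (ZMod ℓ)) := inferInstance
  have hNf := hN (SLn n (ZMod ℓ)) f
  rcases hT n ℓ hn ι Λ x κ hx f hf hNf with h | h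
  · exact h
  · exfalso
    apply hno
    have h1 : (fun t => f (x t)) '' {t | κ t ≠ i} = f '' (x '' {t | κ t ≠ i}) := by
      rw [← Set.image_comp]
      rfl
    refine hS (SLn n (ZMod ℓ)) n ((fun t => f (x t)) '' {t | κ t ≠ i}) (hNf i) ?_ (f γ) ?_
    · rintro _ ⟨t, _, rfl⟩ r hr hd
      exact h t r hr hd
    · rw [h1, ← MonoidHom.map_closure]
      exact ⟨γ, hγ, rfl⟩

end Pool.Agent.T2h96.SM
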