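import Pool.Agent.T2h96.SM.Stm
import Pool.Agent.T2h96.SN.T_R4

/-!
# Task JL: rules for the sets of entries of elementary matrices in the range
-/

set_option autoImplicit false

namespace Pool.Agent.T2h96.SM

open Matrix Pool.Agent.T2h61.PR Pool.Agent.T2h96.SN

namespace JL

variable {n : ℕ} {A : Type} [CommRing A] {Λ : Type} [Group Λ]

theorem mem_Jp {ρ : Λ →* SLn n A} {i j : Fin n} {a : A} : a ∈ Jp ρ i j ↔ R4.Jp ρ i j a := Iff.rfl

theorem mem_Jq {ρ : Λ →* SLn n A} {i j : Fin n} {a : A} : a ∈ Jq ρ i j ↔ R4.Jx ρ i j a := Iff.rfl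

theorem ww_eq (τ : A) (i j : Fin n) : ww τ i j = R4.w τ i j := by
  unfold ww R4.w
  simp only [Fin.lt_def]

theorem base [NeZero n] (hn : 3 ≤ n) {τ : A} {ρ : Λ →* SLn n A}
    (h : ∀ k : Fin n, wt τ k ∈ Jp ρ (k + 1) k) (i j : Fin n) (hij : i.val = (j.val + 1) % n) :
    R4.Jp ρ i j (R4.w τ i j) := by
  have hi : i = j + 1 := Fin.ext (by rw [hij, R4.val_succ hn])
  subst hi
  have h0 := mem_Jp.1 (h j)
  have e : wt τ j = R4.w τ (j + 1) j := by
    unfold wt R4.w
    have h1 : (j + 1 : Fin n) = 0 ↔ (j + 1 : Fin n).val < j.val := by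
      have h0 : ((0 : Fin n) : ℕ) = 0 := by simp
      have hj := j.2
      have h2 := hij
      rw [R4.mod_lt_two (by omega)] at h2
      rw [Fin.ext_iff, h0]
      split_ifs at h2 <;> omega
    simp only [h1]
  rwa [e] at h0

theorem step [NeZero n] (hn : 3 ≤ n) {τ : A} {ρ : Λ →* SLn n A}
    (h : ∀ k : Fin n, wt τ k ∈ Jp ρ (k + 1) k) : ∀ s : ℕ, 1 ≤ s → s < n → ∀ i j : Fin n,
      i.val = (j.val + s) % n → R4.Jp ρ i j (R4.w τ i j) := by
  intro s hs
  induction s, hs using Nat.le_induction with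
  | base => intro _ i j hij; exact base hn h i j hij
  | succ s hs ih =>
    intro hsn i j hij
    have hm : (j.val + s) % n < n := Nat.mod_lt _ (by omega)
    let m : Fin n := ⟨(j.val + s) % n, hm⟩
    have hmv : m.val = (j.val + s) % n := rfl
    have h1 := ih (by omega) m j hmv
    have him : i.val = (m.val + 1) % n := by
      rw [hij, hmv, Nat.mod_add_mod, add_assoc]
    have h2 := base hn h i m him
    have hjn := j.2
    have e1 := R4.mod_lt_two (a := j.val + s) (m := n) (by omega)
    have e2 := R4.mod_lt_two (a := j.val + (s + 1)) (m := n) (by omega)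
    rw [e1] at hmv
    rw [e2] at hij
    have d1 : i ≠ m := by
      intro he
      rw [he] at hij
      split_ifs at hij hmv <;> omega
    have d2 : m ≠ j := by
      intro he
      rw [he] at hmv
      split_ifs at hmv <;> omega
    have d3 : i ≠ j := by
      intro he
      rw [he] at hij
      split_ifs at hij <;> omega
    have h3 := (R4.Jp.mul d1 d2 d3 h2 h1).jp
    have e3 : R4.w τ i m * R4.w τ m j = R4.w τ i j := by
      unfold R4.w
      split_ifs at hij hmv with c1 c2 c3
      · rw [if_neg (by omega), if_neg (by omega), if_neg (by omega), one_mul]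
      · omega
      · rw [if_pos (by omega), if_neg (by omega), if_pos (by omega), mul_one]
      · rw [if_neg (by omega), if_pos (by omega), if_pos (by omega), one_mul]
    rw [← e3]
    exact h3

theorem all [NeZero n] (hn : 3 ≤ n) {τ : A} {ρ : Λ →* SLn n A}
    (h : ∀ k : Fin n, wt τ k ∈ Jp ρ (k + 1) k) (i j : Fin n) (hij : i ≠ j) :
    R4.Jp ρ i j (R4.w τ i j) := by
  have hi := i.2
  have hj := j.2
  have hne : i.val ≠ j.val := fun he => hij (Fin.ext he)
  rcases Nat.lt_or_ge i.val j.val with hlt | hge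
  · refine step hn h (i.val + n - j.val) (by omega) (by omega) i j ?_
    have : j.val + (i.val + n - j.val) = i.val + n := by omega
    rw [this, Nat.add_mod_right, Nat.mod_eq_of_lt hi]
  · refine step hn h (i.val - j.val) (by omega) (by omega) i j ?_
    have : j.val + (i.val - j.val) = i.val := by omega
    rw [this, Nat.mod_eq_of_lt hi]

end JL

theorem t_JL : S_JL := by
  intro n _ hn Λ _ R _ ρ
  refine ⟨fun i j hij => ⟨R4.Jp.zero ρ i j, fun a ha b hb => R4.Jp.add hij ha hb,
    fun a ha => R4.Jp.neg (by omega) hij ha⟩,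
    fun i j k hij hjk hik a ha b hb => R4.Jp.mul hij hjk hik ha hb, fun τ h => ⟨?_, ?_⟩⟩
  · intro i j hij
    rw [JL.ww_eq]
    exact JL.all hn h i j hij
  · intro i j hij a ha
    obtain ⟨k, hki, hkj⟩ := R4.third hn i j
    have h1 := (R4.Jp.mul hij hkj.symm hki.symm ha (JL.all hn h j k hkj.symm)).jp
    have h2 := R4.Jp.mul hki.symm hkj hij h1 (JL.all hn h k j hkj)
    rwa [mul_assoc, R4.w_mul τ j k hkj.symm] at h2

end Pool.Agent.T2h96.SM
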