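import Pool.Agent.T2h96.SM.Stm

/-! Project SM, task NFX. -/

set_option autoImplicit false

namespace Pool.Agent.T2h96.SM

open Matrix Pool.Agent.T2h61.PR Pool.Agent.T2h96.SN

theorem t_NFX : S_VEC → S_SIG → S_CYC → S_NFX := by
  intro hVEC hSIG hCYC n ℓ _ _ F _ _ _ ι hn a κ P hP haP hfix
  obtain ⟨b, hb⟩ := hVEC n ℓ F ι hn a κ P hP haP hfix
  obtain ⟨s, c, hs, hc, hT⟩ := hSIG n ℓ F ι hn a κ P hP haP hfix b hb
  obtain ⟨π, g, hπ, hgk⟩ := hCYC n F hn b s hT
  refine ⟨π, g, c, fun k => hc (π k), fun t => ?_⟩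
  obtain ⟨k, hk⟩ : ∃ k, κ t = π k := ⟨π.symm (κ t), (π.apply_symm_apply _).symm⟩
  have hk' : π.symm (κ t) = k := by rw [hk, π.symm_apply_apply]
  rw [hk']
  have key : (a t : Mn n F) * (g : Mn n F) = (g : Mn n F) * cy k (c t) := by
    apply Matrix.ext_of_mulVec_single
    intro i
    rw [← Matrix.mulVec_mulVec, ← Matrix.mulVec_mulVec, hgk]
    unfold cy
    rw [Matrix.add_mulVec, Matrix.one_mulVec, Matrix.mulVec_add, hgk]
    by_cases hik : i = k
    · subst hik
      have h0 := hs t
      rw [hk, hπ] at h0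
      rw [h0]
      congr 1
      have h1 : (Matrix.single (i + 1) i (c t) : Mn n F) *ᵥ Pi.single i 1 =
          c t • Pi.single (i + 1) 1 := by
        rw [Matrix.mulVec_single_one]
        funext u
        by_cases hu : u = i + 1
        · subst hu
          simp [Matrix.col]
        · rw [Pi.smul_apply, Pi.single_eq_of_ne hu, smul_zero]
          show Matrix.single (i + 1) i (c t) u i = 0
          exact Matrix.single_apply_of_ne _ _ _ _ _ (fun h => hu h.1.symm)
      rw [h1, Matrix.mulVec_smul, hgk]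
    · rw [hb (π i) t (by rw [hk]; exact fun h => hik (π.injective h).symm)]
      have h1 : (Matrix.single (k + 1) k (c t) : Mn n F) *ᵥ Pi.single i 1 = 0 := by
        rw [Matrix.mulVec_single_one]
        funext u
        show Matrix.single (k + 1) k (c t) u i = 0
        exact Matrix.single_apply_of_ne _ _ _ _ _ (fun h => hik h.2.symm)
      rw [h1, Matrix.mulVec_zero, add_zero]
  rw [← key, mul_assoc, Units.mul_inv, mul_one]

end Pool.Agent.T2h96.SM
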