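import Pool.Agent.T2h96.SM.Stm
import Pool.Agent.T2h61.PR.T_TOP

/-!
# Project SM, task PER
-/

set_option autoImplicit false

namespace Pool.Agent.T2h96.SM

open Matrix Pool.Agent.T2h61.PR Pool.Agent.T2h96.SN
open scoped commutatorElement

theorem t_PER : S_PER := by
  classical
  intro n hn ι Λ _ x hx hperf A R _ _ j hj ρ hρ
  let H : Subgroup (SLn n R) := (Matrix.SpecialLinearGroup.map (n := Fin n) j).range
  have hK : ∀ l, ρ l ∈ Subgroup.center (SLn n R) ⊔ H := by
    have hle : (⊤ : Subgroup Λ) ≤ (Subgroup.center (SLn n R) ⊔ H).comap ρ := by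
      rw [← hx, Subgroup.closure_le]
      rintro _ ⟨t, rfl⟩
      obtain ⟨ζ, M, hM⟩ := hρ t
      show ρ (x t) ∈ Subgroup.center (SLn n R) ⊔ H
      have hdet : ((M : Mn n A).map j).det = 1 := by
        have h1 := RingHom.map_det j (M : Mn n A)
        rw [M.2, map_one] at h1
        exact h1.symm
      have hz : ζ ^ n = 1 := by
        have h1 := (ρ (x t)).2
        rw [hM, Matrix.det_smul, hdet, mul_one, Fintype.card_fin] at h1
        exact h1
      let z : SLn n R := ⟨ζ • 1, by
        rw [Matrix.det_smul, Matrix.det_one, mul_one, Fintype.card_fin, hz]⟩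
      have hzc : z ∈ Subgroup.center (SLn n R) := by
        rw [Subgroup.mem_center_iff]
        intro g
        apply Subtype.ext
        show (g : Mn n R) * (ζ • 1) = (ζ • 1) * (g : Mn n R)
        rw [mul_smul_comm, smul_mul_assoc, mul_one, one_mul]
      have hh : Matrix.SpecialLinearGroup.map (n := Fin n) j M ∈ H := ⟨M, rfl⟩
      have he : ρ (x t) = z * Matrix.SpecialLinearGroup.map (n := Fin n) j M := by
        apply Subtype.ext
        show (ρ (x t) : Mn n R) = (ζ • 1) * ((M : Mn n A).map j)
        rw [hM, smul_mul_assoc, one_mul]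
      rw [he]
      exact mul_mem (Subgroup.mem_sup_left hzc) (Subgroup.mem_sup_right hh)
    exact fun l => hle (Subgroup.mem_top l)
  have hH : ∀ l, ρ l ∈ H := by
    have hle : (⊤ : Subgroup Λ) ≤ H.comap ρ := by
      rw [← hperf, commutator_def, Subgroup.commutator_le]
      intro a _ b _
      have ha := hK a
      have hb := hK b
      rw [← SetLike.mem_coe, Subgroup.normal_mul] at ha hb
      obtain ⟨z, hz, h, hh, e1⟩ := ha
      obtain ⟨z', hz', h', hh', e2⟩ := hb
      show ρ ⁅a, b⁆ ∈ H
      rw [map_commutatorElement, ← e1, ← e2]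
      have hz1 := Subgroup.mem_center_iff.1 hz
      have hz2 := Subgroup.mem_center_iff.1 hz'
      have : ⁅z * h, z' * h'⁆ = ⁅h, h'⁆ := by
        rw [commutatorElement_def, commutatorElement_def]
        have e3 : z * h * (z' * h') = z * z' * (h * h') := by
          rw [mul_assoc, ← mul_assoc h z' h', hz2 h]; group
        have e4 : (z * h)⁻¹ * (z' * h')⁻¹ = (z * z')⁻¹ * (h⁻¹ * h'⁻¹) := by
          have h5 : (z' * h') * (z * h) = (z * z') * (h' * h) := by
            rw [mul_assoc, ← mul_assoc h' z h, hz1 h']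
            rw [← mul_assoc z' , ← mul_assoc z', hz1 z']
            group
          rw [← _root_.mul_inv_rev, h5, _root_.mul_inv_rev, _root_.mul_inv_rev h' h]
          have hc : z * z' ∈ Subgroup.center (SLn n R) := mul_mem hz hz'
          have hc' := Subgroup.mem_center_iff.1 (inv_mem hc)
          rw [hc' (h⁻¹ * h'⁻¹)]
        rw [mul_assoc (z * h * (z' * h')), e4, e3]
        have hc : (z * z')⁻¹ ∈ Subgroup.center (SLn n R) := inv_mem (mul_mem hz hz')
        have hc' := Subgroup.mem_center_iff.1 hc
        rw [mul_assoc (z * z') (h * h'), ← mul_assoc (h * h'), hc' (h * h')]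
        group
      rw [this]
      show ⁅h, h'⁆ ∈ H
      rw [commutatorElement_def]
      exact mul_mem (mul_mem (mul_mem hh hh') (inv_mem hh)) (inv_mem hh')
    exact fun l => hle (Subgroup.mem_top l)
  exact lift_sl (n := n) j hj ρ Set.univ Subgroup.closure_univ (fun s _ => hH s)

end Pool.Agent.T2h96.SM
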