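import Pool.Agent.T2h96.SM.Stm

set_option autoImplicit false

/-!
# Project SM, task SIG
-/

namespace Pool.Agent.T2h96.SM

open Matrix Pool.Agent.T2h61.PR Pool.Agent.T2h96.SN

namespace SIG

/-- the action of the invertible matrices on the column vectors -/
def act (n : ℕ) (F : Type) [Field F] : (Mn n F)ˣ →* Module.End F (Fin n → F) where
  toFun g := (g : Mn n F).mulVecLin
  map_one' := by
    ext x
    simp
  map_mul' a b := by
    ext x
    simp

/-- the group fixing a subspace pointwise -/
def fix {n : ℕ} {F : Type} [Field F] (U : Submodule F (Fin n → F)) : Subgroup (Mn n F)ˣ where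
  carrier := {g | ∀ u ∈ U, act n F g u = u}
  one_mem' := by
    intro u _
    rw [map_one]
    rfl
  mul_mem' := by
    intro a b ha hb u hu
    rw [map_mul, Module.End.mul_apply, hb u hu, ha u hu]
  inv_mem' := by
    intro a ha u hu
    have h1 : act n F a⁻¹ (act n F a u) = u := by
      rw [← Module.End.mul_apply, ← map_mul, inv_mul_cancel, map_one]
      rfl
    rwa [ha u hu] at h1

/-- the subspace of the vectors with the coordinates `0` in `T` -/
def sub {n : ℕ} {F : Type} [Field F] (b : Module.Basis (Fin n) F (Fin n → F)) (T : Set (Fin n)) :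
    Submodule F (Fin n → F) where
  carrier := {v | ∀ t ∈ T, b.repr v t = 0}
  zero_mem' := by
    intro t _
    simp
  add_mem' := by
    intro x y hx hy t ht
    simp [hx t ht, hy t ht]
  smul_mem' := by
    intro c x hx t ht
    simp [hx t ht]

end SIG

theorem t_SIG : S_FIXV → S_SIG := by
  intro hF n ℓ _ F _ _ _ ι hn a κ P hP hy hv b hb
  -- the displacement
  set D : ι → (Fin n → F) := fun t => (a t : Mn n F) *ᵥ b (κ t) - b (κ t) with hD
  have hL : ∀ t v, (a t : Mn n F) *ᵥ v = v + (b.repr v (κ t)) • D t := by
    intro t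
    have h1 : (a t : Mn n F).mulVecLin = LinearMap.id + (b.coord (κ t)).smulRight (D t) := by
      apply b.ext
      intro i
      by_cases hij : κ t = i
      · subst hij
        simp [hD]
      · have hji : i ≠ κ t := fun h => hij h.symm
        simp [hb i t hij, Finsupp.single_apply, hji]
    intro v
    have h2 := congrArg (fun f => f v) h1
    simpa using h2
  have hD0 : ∀ j, ∃ k, ∃ t, κ t = j ∧ b.repr (D t) k ≠ 0 := by
    intro j
    by_contra h
    push Not at h
    apply b.ne_zero j
    apply hv
    intro t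
    rw [hL]
    by_cases hij : κ t = j
    · have h1 : D t = 0 := by
        apply b.repr.injective
        ext k
        rw [h k t hij]
        simp
      rw [h1, smul_zero, add_zero]
    · have : b.repr (b j) (κ t) = 0 := by
        rw [b.repr_self, Finsupp.single_apply, if_neg (Ne.symm hij)]
      rw [this, zero_smul, add_zero]
  -- closed sets
  have hcl : ∀ s : Fin n → Fin n, (∀ j, ∃ t, κ t = j ∧ b.repr (D t) (s j) ≠ 0) →
      ∀ T : Set (Fin n), T.Nonempty → (∀ t ∈ T, s t ∈ T) → T = Set.univ := by
    intro s hs T hT hsT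
    by_contra hTu
    obtain ⟨i, hi⟩ := (Set.ne_univ_iff_exists_notMem T).1 hTu
    obtain ⟨t0, ht0⟩ := hT
    have hU : SIG.sub b T ≠ ⊤ := by
      intro h
      have h1 : b t0 ∈ SIG.sub b T := by rw [h]; trivial
      have h2 := h1 t0 ht0
      rw [b.repr_self, Finsupp.single_eq_same] at h2
      exact one_ne_zero h2
    have hfix : Subgroup.closure (a '' {t | κ t ∈ T}) ≤ SIG.fix (SIG.sub b T) := by
      rw [Subgroup.closure_le]
      rintro _ ⟨t, ht, rfl⟩ u hu
      change (a t : Mn n F) *ᵥ u = u
      rw [hL, hu (κ t) ht, zero_smul, add_zero]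
    have hPi : Subgroup.closure (a '' {t | κ t ∈ T}) ≤ P i := by
      rw [Subgroup.closure_le]
      rintro _ ⟨t, ht, rfl⟩
      apply hy i t
      intro h
      apply hi
      rw [← h]
      exact ht
    obtain ⟨v, hvU, hvT⟩ := hF ℓ F (Fin n → F) (Mn n F)ˣ (SIG.act n F)
      (Subgroup.closure (a '' {t | κ t ∈ T}))
      (SIG.sub b T) hU (fun g hg u hu => by rw [hfix hg u hu]; exact hu) (fun g hg => by
        obtain ⟨k, hk⟩ := hP i g (hPi hg)
        exact ⟨k, by rw [← map_pow, hk, map_one]⟩)
    have h1 : ∃ j ∈ T, b.repr v j ≠ 0 := by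
      by_contra h
      push Not at h
      exact hvU h
    obtain ⟨j, hj, hj0⟩ := h1
    obtain ⟨t, htj, htk⟩ := hs j
    have h2 := hvT (a t) (Subgroup.subset_closure ⟨t, by rw [Set.mem_setOf_eq, htj]; exact hj, rfl⟩)
    have h3 : (a t : Mn n F) *ᵥ v - v ∈ SIG.sub b T := h2
    rw [hL, add_sub_cancel_left] at h3
    have h4 := h3 (s j) (hsT j hj)
    rw [map_smul, Finsupp.smul_apply, smul_eq_mul, htj] at h4
    exact mul_ne_zero hj0 htk h4
  have hbij : ∀ s : Fin n → Fin n, (∀ j, ∃ t, κ t = j ∧ b.repr (D t) (s j) ≠ 0) →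
      Function.Bijective s := by
    intro s hs
    have h1 : Function.Surjective s := by
      rw [← Set.range_eq_univ]
      apply hcl s hs
      · exact ⟨s ⟨0, by omega⟩, Set.mem_range_self _⟩
      · rintro _ _
        exact Set.mem_range_self _
    exact ⟨Finite.injective_iff_surjective.2 h1, h1⟩
  choose s hs using hD0
  have huniq : ∀ t k, b.repr (D t) k ≠ 0 → k = s (κ t) := by
    intro t k hk
    have h1 := hbij s hs
    have h2 : Function.Bijective (Function.update s (κ t) k) := by
      apply hbij
      intro i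
      by_cases hij : i = κ t
      · subst hij
        rw [Function.update_self]
        exact ⟨t, rfl, hk⟩
      · rw [Function.update_of_ne hij]
        exact hs i
    obtain ⟨m, hm⟩ := h2.2 (s (κ t))
    by_cases hmj : m = κ t
    · subst hmj
      rwa [Function.update_self] at hm
    · rw [Function.update_of_ne hmj] at hm
      exact absurd (h1.1 hm) hmj
  refine ⟨s, fun t => b.repr (D t) (s (κ t)), ?_, ?_, hcl s hs⟩
  · intro t
    have h1 : D t = b.repr (D t) (s (κ t)) • b (s (κ t)) := by
      apply b.repr.injective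
      ext k
      rw [map_smul, b.repr_self, Finsupp.smul_apply, Finsupp.single_apply]
      by_cases hk : s (κ t) = k
      · rw [if_pos hk, ← hk]
        simp
      · rw [if_neg hk, smul_zero]
        by_contra h
        exact hk (huniq t k h).symm
    change (a t : Mn n F) *ᵥ b (κ t) = b (κ t) + b.repr (D t) (s (κ t)) • b (s (κ t))
    rw [← h1, hD]
    simp
  · intro j
    obtain ⟨t, ht, htk⟩ := hs j
    refine ⟨t, ht, ?_⟩
    change b.repr (D t) (s (κ t)) ≠ 0
    rw [ht]
    exact htk

end Pool.Agent.T2h96.SM
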