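import Pool.Agent.T2h96.SM.Stm

/-!
# Task SMO (helper31): a finite nilpotent group generated by elements with smooth orders
-/

set_option autoImplicit false

namespace Pool.Agent.T2h96.SM

namespace SMO

/-- a homomorphism to a `p`-group is trivial on the elements of order prime to `p` -/
theorem triv {H P : Type*} [Group H] [Group P] {p : ℕ} [Fact p.Prime] (hP : IsPGroup p P)
    (φ : H →* P) (x : H) (hx : ¬ p ∣ orderOf x) : φ x = 1 := by
  obtain ⟨k, hk⟩ := IsPGroup.iff_orderOf.1 hP (φ x)
  have h1 : orderOf (φ x) ∣ orderOf x := orderOf_map_dvd φ x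
  rcases Nat.eq_zero_or_pos k with h0 | h0
  · rw [h0, pow_zero, orderOf_eq_one_iff] at hk
    exact hk
  · exfalso
    apply hx
    refine dvd_trans ?_ h1
    rw [hk]
    exact dvd_pow_self p h0.ne'

end SMO

open SMO in
theorem t_SMO : S_SMO := by
  intro G _ _ n S hnil hS h hh r hr hdvd
  by_contra hlt
  have hrp : Fact r.Prime := ⟨hr⟩
  set H := Subgroup.closure S with hH
  have hnil' : Group.IsNilpotent H := hnil
  obtain ⟨e⟩ := ((Group.isNilpotent_of_finite_tfae (G := H)).out 0 4).1 hnil'
  -- the projections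
  let φ : ∀ (p : (Nat.card H).primeFactors) (P : Sylow p H), H →* P := fun p P =>
    ((Pi.evalMonoidHom (fun Q : Sylow p H => (Q : Subgroup H)) P).comp
      (Pi.evalMonoidHom (fun q : (Nat.card H).primeFactors => ∀ Q : Sylow q H, (Q : Subgroup H))
        p)).comp e.symm.toMonoidHom
  have hφ : ∀ (p : (Nat.card H).primeFactors) (P : Sylow p H) (x : H), φ p P x = e.symm x p P :=
    fun p P x => rfl
  -- the projections to the Sylow `r`-subgroups are trivial
  have hr1 : ∀ (p : (Nat.card H).primeFactors) (P : Sylow p H), (p : ℕ) = r → φ p P = 1 := by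
    intro p P hp
    haveI : Fact (p : ℕ).Prime := ⟨Nat.prime_of_mem_primeFactors p.2⟩
    have htop : Subgroup.closure (((↑) : H → G) ⁻¹' S) = ⊤ := Subgroup.closure_closure_coe_preimage
    refine MonoidHom.eq_of_eqOn_dense htop ?_
    intro x hx
    have hx' : (x : G) ∈ S := hx
    rw [MonoidHom.one_apply]
    refine triv P.isPGroup' (φ p P) x ?_
    intro h1
    rw [hp, ← Subgroup.orderOf_coe] at h1
    exact hlt (hS x hx' r hr h1)
  set y : H := (⟨h, hh⟩ : H) ^ (orderOf h / r) with hy
  have hord : orderOf y = r := by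
    have h1 : orderOf (⟨h, hh⟩ : H) = orderOf h := Subgroup.orderOf_mk h hh
    rw [hy, orderOf_pow_of_dvd, h1]
    · exact Nat.div_div_self hdvd (orderOf_pos h).ne'
    · have := Nat.div_pos (Nat.le_of_dvd (orderOf_pos h) hdvd) hr.pos
      omega
    · rw [h1]
      exact Nat.div_dvd_of_dvd hdvd
  have hy1 : e.symm y = 1 := by
    funext p P
    rw [← hφ]
    haveI : Fact (p : ℕ).Prime := ⟨Nat.prime_of_mem_primeFactors p.2⟩
    by_cases hp : (p : ℕ) = r
    · rw [hr1 p P hp]
      rfl
    · refine triv P.isPGroup' (φ p P) y ?_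
      rw [hord]
      intro h1
      exact hp ((Nat.prime_dvd_prime_iff_eq (Nat.prime_of_mem_primeFactors p.2) hr).1 h1)
  have hy2 : y = 1 := by
    have := congrArg e hy1
    rwa [e.apply_symm_apply, map_one] at this
  rw [hy2, orderOf_one] at hord
  exact hr.one_lt.ne hord

end Pool.Agent.T2h96.SM
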