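import Pool.Agent.T2h96.SM.TXlem

/-! Project SM, task TXA. -/

set_option autoImplicit false

namespace Pool.Agent.T2h96.SM

open Matrix Pool.Agent.T2h61.PR Pool.Agent.T2h96.SN

theorem t_TXA : S_NFX → S_NIL → S_TXA := by
  intro hNF hNIL n ℓ _ _ F _ _ _ ι hn y a b κ hy ha hb hyab ha' hb' hfix
  have hcomm := TX.comm hNIL hn y a b κ hy ha hb ha' hb'
  set P : Fin n → Subgroup (SLn n F) := fun i =>
    Subgroup.closure {h | h ∈ Subgroup.closure (y '' {t | κ t ≠ i}) ∧ ∃ k : ℕ, h ^ ℓ ^ k = 1} with hP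
  obtain ⟨π, g, c, hc, h1⟩ := hNF n ℓ F ι (by omega)
    (fun t => Matrix.SpecialLinearGroup.toGL (a t)) κ
    (fun i => (P i).map Matrix.SpecialLinearGroup.toGL) (by
      rintro i g ⟨h, hh, rfl⟩
      obtain ⟨k, hk⟩ := (hNIL (SLn n F) (Subgroup.closure (y '' {t | κ t ≠ i})) inferInstance (hy i)
        ℓ (Fact.out)).2 h hh
      exact ⟨k, by rw [← map_pow, hk, map_one]⟩) (by
      intro i t hij
      exact ⟨a t, Subgroup.subset_closure ⟨TY.zp_mem (TX.mem_H y κ hij) (ha t), ha' t⟩, rfl⟩) hfix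
  have h1' : ∀ t, (a t : Mn n F) =
      (g : Mn n F) * cy (π.symm (κ t)) (c t) * ((g⁻¹ : (Mn n F)ˣ) : Mn n F) := h1
  choose e he hce using hc
  have h2 : ∀ t, ∃ ζ : F, (b t : Mn n F) = ζ • 1 := by
    intro t
    obtain ⟨ζ, hζ⟩ := TY.scalar
      (((g⁻¹ : (Mn n F)ˣ) : Mn n F) * (b t : Mn n F) * (g : Mn n F)) (fun k => c (e k)) hce (by
        intro l
        have h3 : (a (e l) : Mn n F) * (b t : Mn n F) =
            (b t : Mn n F) * (a (e l) : Mn n F) := by
          have := congrArg (fun A : SLn n F => (A : Mn n F)) (hcomm (e l) t)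
          simpa using this
        have h6 : π.symm (κ (e l)) = l := by rw [he l, π.symm_apply_apply]
        rw [h1' (e l), h6] at h3
        have h4 : ((g⁻¹ : (Mn n F)ˣ) : Mn n F) * (g : Mn n F) = 1 := Units.inv_mul g
        calc ((g⁻¹ : (Mn n F)ˣ) : Mn n F) * (b t : Mn n F) * (g : Mn n F) * cy l (c (e l))
            = ((g⁻¹ : (Mn n F)ˣ) : Mn n F) * ((b t : Mn n F) *
              ((g : Mn n F) * cy l (c (e l)) * ((g⁻¹ : (Mn n F)ˣ) : Mn n F))) * (g : Mn n F) := by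
              simp only [mul_assoc]
              rw [h4, mul_one]
          _ = ((g⁻¹ : (Mn n F)ˣ) : Mn n F) *
              ((g : Mn n F) * cy l (c (e l)) * ((g⁻¹ : (Mn n F)ˣ) : Mn n F) * (b t : Mn n F)) *
                (g : Mn n F) := by rw [h3]
          _ = cy l (c (e l)) * (((g⁻¹ : (Mn n F)ˣ) : Mn n F) * (b t : Mn n F) * (g : Mn n F)) := by
              simp only [mul_assoc]
              rw [← mul_assoc, h4, one_mul])
    refine ⟨ζ, ?_⟩
    have h5 : (g : Mn n F) * ((g⁻¹ : (Mn n F)ˣ) : Mn n F) = 1 := Units.mul_inv g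
    calc (b t : Mn n F) = (g : Mn n F) * (((g⁻¹ : (Mn n F)ˣ) : Mn n F) * (b t : Mn n F) *
          (g : Mn n F)) * ((g⁻¹ : (Mn n F)ˣ) : Mn n F) := by
          simp only [mul_assoc]
          rw [h5, mul_one, ← mul_assoc, h5, one_mul]
      _ = ζ • 1 := by
          rw [hζ, Matrix.mul_smul, mul_one, Matrix.smul_mul, h5]
  choose ζ hζ using h2
  refine ⟨π, g, c, ζ, fun k => ⟨e k, he k, hce k⟩, fun t => ?_⟩
  rw [← h1' t]
  have h3 : (y t : Mn n F) = (a t : Mn n F) * (b t : Mn n F) := by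
    have := congrArg (fun A : SLn n F => (A : Mn n F)) (hyab t)
    simpa using this
  rw [h3, hζ, Matrix.mul_smul, mul_one]

end Pool.Agent.T2h96.SM
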