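import Pool.Agent.T2h96.SM.Stm

/-! Project SM, task TXP. -/

set_option autoImplicit false

namespace Pool.Agent.T2h96.SM

open Matrix Pool.Agent.T2h61.PR Pool.Agent.T2h96.SN

theorem t_TXP : S_JOR → S_TXA → S_TXB → S_TXC → S_TXP := by
  intro hJOR hTYA hTYB hTYC n ℓ _ _ hn ι Λ _ x κ hx f hf hynil
  set y : ι → SLn n (ZMod ℓ) := fun j => f (x j) with hy
  have hcl : Subgroup.closure (Set.range y) = ⊤ := by
    have h1 : Set.range y = f '' Set.range x := by
      rw [← Set.range_comp]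
      rfl
    rw [h1, ← MonoidHom.map_closure, hx, ← MonoidHom.range_eq_map, MonoidHom.range_eq_top]
    exact hf
  have hj := fun j => hJOR ℓ (SLn n (ZMod ℓ)) (y j)
  choose a ha b hb hab ha' hb' using hj
  rcases hTYB n ℓ (ZMod ℓ) ι hn y a b κ hynil hcl ha hb hab ha' hb' with h | h
  · left
    obtain ⟨π, g, d, ζ, hd, h2⟩ := hTYA n ℓ (ZMod ℓ) ι hn y a b κ hynil ha hb hab ha' hb' h
    exact ⟨π, g, d, ζ, hd, h2⟩
  · right
    refine hTYC n ℓ (ZMod ℓ) ι hn y κ hynil hcl fun j => ?_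
    have : y j = b j := by rw [hab j, h j, one_mul]
    rw [this]
    exact hb' j

end Pool.Agent.T2h96.SM
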