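import Pool.Agent.T2h96.SM.Stm
import Pool.Agent.T2h96.SN.T_R3

/-!
# Task UT (helper31): a perfect group is mapped trivially if one colour is missing
-/

set_option autoImplicit false

namespace Pool.Agent.T2h96.SM

open Matrix Pool.Agent.T2h61.PR Pool.Agent.T2h96.SN

namespace UT

variable {n : ℕ} {Q : Type} [CommRing Q] {Λ : Type} [Group Λ]

/-- the lower triangular matrices -/
theorem lower {ι : Type} {x : ι → Λ} (hx : Subgroup.closure (Set.range x) = ⊤) {σ : Λ →* SLn n Q}
    (h : ∀ k, ∀ i j : Fin n, i < j → (σ (x k) : Mn n Q) i j = 0) : R3.P σ 0 := by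
  have key : ∀ l : Λ, BlockTriangular (σ l : Mn n Q) (fun i : Fin n => OrderDual.toDual i) := by
    intro l
    have hl : l ∈ Subgroup.closure (Set.range x) := by rw [hx]; trivial
    induction hl using Subgroup.closure_induction with
    | mem y hy =>
      obtain ⟨k, rfl⟩ := hy
      intro i j hij
      exact h k i j (OrderDual.toDual_lt_toDual.1 hij)
    | one =>
      rw [R3.coe_one']
      exact blockTriangular_one
    | mul a b _ _ ha hb =>
      have e : (σ (a * b) : Mn n Q) = (σ a : Mn n Q) * (σ b : Mn n Q) := by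
        rw [map_mul]
        rfl
      rw [e]
      exact ha.mul hb
    | inv a _ ha =>
      have e1 : (σ a : Mn n Q) * (σ a⁻¹ : Mn n Q) = 1 := by
        have h4 : σ a * σ a⁻¹ = 1 := by
          rw [← map_mul, mul_inv_cancel, map_one]
        exact congrArg Subtype.val h4
      have e2 : (σ a⁻¹ : Mn n Q) * (σ a : Mn n Q) = 1 := by
        have h4 : σ a⁻¹ * σ a = 1 := by
          rw [← map_mul, inv_mul_cancel, map_one]
        exact congrArg Subtype.val h4
      letI : Invertible (σ a : Mn n Q) := ⟨(σ a⁻¹ : Mn n Q), e2, e1⟩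
      have e3 : (σ a⁻¹ : Mn n Q) = (σ a : Mn n Q)⁻¹ := (Matrix.inv_eq_left_inv e2).symm
      rw [e3]
      exact blockTriangular_inv_of_blockTriangular ha
  intro l i j hij
  have hij' : i < j := Fin.lt_def.2 (by omega)
  rw [Matrix.one_apply_ne hij'.ne]
  exact key l (OrderDual.toDual_lt_toDual.2 hij')

/-- conjugation by a permutation -/
def cj (e : Equiv.Perm (Fin n)) : SLn n Q →* SLn n Q where
  toFun M := ⟨(M : Mn n Q).submatrix e e, by rw [Matrix.det_submatrix_equiv_self]; exact M.2⟩
  map_one' := by
    apply Subtype.ext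
    show (1 : Mn n Q).submatrix e e = 1
    exact Matrix.submatrix_one_equiv e
  map_mul' M N := by
    apply Subtype.ext
    show ((M : Mn n Q) * (N : Mn n Q)).submatrix e e =
      (M : Mn n Q).submatrix e e * (N : Mn n Q).submatrix e e
    rw [Matrix.submatrix_mul_equiv]

end UT

open UT in
theorem t_UT : S_UT := by
  intro n _ hn ι Λ _ x κ hx hp R _ c ζ ρ hρ k₀ hc l
  let e : Equiv.Perm (Fin n) := Equiv.addRight (k₀ + 1)
  let σ : Λ →* SLn n R := (cj e).comp ρ
  have hσ : ∀ (l : Λ) (i j : Fin n), (σ l : Mn n R) i j = (ρ l : Mn n R) (e i) (e j) :=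
    fun l i j => rfl
  have he : ∀ i, e i = i + (k₀ + 1) := fun i => rfl
  have hP : R3.P σ 0 := by
    refine lower hx ?_
    intro t i j hij
    rw [hσ, hρ t]
    change ζ t * ((1 : Mn n R) + Matrix.single (κ t + 1) (κ t) (c t)) (e i) (e j) = 0
    rw [Matrix.add_apply, Matrix.one_apply_ne (fun h => hij.ne (e.injective h)),
      Matrix.single_apply]
    by_cases hk : κ t + 1 = e i ∧ κ t = e j
    · rw [if_pos hk]
      obtain ⟨h1, h2⟩ := hk
      -- the last index
      have h3 : e i = e j + 1 := by rw [← h1, h2]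
      have h4 : i = j + 1 := by
        rw [he, he] at h3
        have h5 : i + (k₀ + 1) = (j + 1) + (k₀ + 1) := by
          rw [h3, add_right_comm]
        exact add_right_cancel h5
      have h5 : κ t = k₀ := by
        have h6 : (j + 1 : Fin n) < j := by rwa [h4] at hij
        have h7 : j + 1 = 0 := by
          have hk := j.2
          have h3 := R4.val_succ hn j
          have h4 : (j + 1 : Fin n).val < j.val := h6
          rw [R4.mod_lt_two (by omega)] at h3
          have h0 : ((0 : Fin n) : ℕ) = 0 := by simp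
          rw [Fin.ext_iff, h0]
          split_ifs at h3 <;> omega
        rw [h2, he]
        calc j + (k₀ + 1) = (j + 1) + k₀ := by rw [add_comm k₀ 1, ← add_assoc]
          _ = k₀ := by rw [h7, zero_add]
      rw [hc t h5, add_zero, mul_zero]
    · rw [if_neg hk, add_zero, mul_zero]
  have h1 := R3.eq_one hp hP l
  apply Subtype.ext
  show (ρ l : Mn n R) = 1
  ext i j
  have h2 := congrFun (congrFun h1 (e.symm i)) (e.symm j)
  rw [hσ, e.apply_symm_apply, e.apply_symm_apply] at h2
  rw [h2, Matrix.one_apply, Matrix.one_apply]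
  simp

end Pool.Agent.T2h96.SM
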