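import Pool.Agent.T2h96.SM.Stm

/-!
# Project SM, task VEC
-/

set_option autoImplicit false

namespace Pool.Agent.T2h96.SM

open Matrix Pool.Agent.T2h61.PR Pool.Agent.T2h96.SN

namespace VEC

/-- the action of the invertible matrices on the column vectors -/
def act (n : ℕ) (F : Type) [Field F] : (Mn n F)ˣ →* Module.End F (Fin n → F) where
  toFun g := (g : Mn n F).mulVecLin
  map_one' := by
    ext x
    simp
  map_mul' a b := by
    ext x
    simp

end VEC

theorem t_VEC : S_FIXV → S_VEC := by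
  intro hF n ℓ _ F _ _ _ ι hn a κ P hP ha hv
  have hne : Nonempty (Fin n) := Fin.pos_iff_nonempty.1 (by omega)
  have hbt : (⊥ : Submodule F (Fin n → F)) ≠ ⊤ := bot_ne_top
  have h1 : ∀ i, ∃ v : Fin n → F, v ≠ 0 ∧ ∀ g ∈ P i, (g : Mn n F) *ᵥ v = v := by
    intro i
    obtain ⟨v, hv1, hv2⟩ := hF ℓ F (Fin n → F) (Mn n F)ˣ (VEC.act n F) (P i) ⊥ hbt
      (fun g _ u hu => by rw [Submodule.mem_bot] at hu ⊢; rw [hu, map_zero])
      (fun g hg => by
        obtain ⟨k, hk⟩ := hP i g hg
        exact ⟨k, by rw [← map_pow, hk, map_one]⟩)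
    rw [Submodule.mem_bot] at hv1
    refine ⟨v, hv1, fun g hg => ?_⟩
    have h2 := hv2 g hg
    rw [Submodule.mem_bot, sub_eq_zero] at h2
    exact h2
  choose v hv0 hvP using h1
  have hfix : ∀ i t, κ t ≠ i → (a t : Mn n F) *ᵥ v i = v i := fun i t h => hvP i _ (ha i t h)
  have hmov : ∀ i, ∃ t, κ t = i ∧ (a t : Mn n F) *ᵥ v i ≠ v i := by
    intro i
    by_contra hcon
    push Not at hcon
    refine hv0 i (hv _ fun t => ?_)
    by_cases h : κ t = i
    · exact hcon t h
    · exact hfix i t h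
  have h3 : LinearIndependent F v := by
    rw [Fintype.linearIndependent_iff]
    intro α hα j
    by_contra hj
    obtain ⟨t, ht, ht'⟩ := hmov j
    have h4 : (a t : Mn n F).mulVecLin (∑ i, α i • v i) - ∑ i, α i • v i = 0 := by
      rw [hα, map_zero, sub_zero]
    rw [map_sum, ← Finset.sum_sub_distrib, ← Finset.add_sum_erase _ _ (Finset.mem_univ j)] at h4
    have h5 : ∑ i ∈ Finset.univ.erase j, ((a t : Mn n F).mulVecLin (α i • v i) - α i • v i) = 0 := by
      refine Finset.sum_eq_zero fun i hi => ?_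
      have hi' := Finset.ne_of_mem_erase hi
      rw [map_smul, Matrix.mulVecLin_apply, hfix i t (by rw [ht]; exact hi'.symm), sub_self]
    rw [h5, add_zero, map_smul, Matrix.mulVecLin_apply, ← smul_sub] at h4
    rcases smul_eq_zero.1 h4 with h6 | h6
    · exact hj h6
    · exact ht' (sub_eq_zero.1 h6)
  refine ⟨basisOfLinearIndependentOfCardEqFinrank h3 (by simp), ?_⟩
  intro i t hit
  rw [coe_basisOfLinearIndependentOfCardEqFinrank]
  exact hfix i t hit

end Pool.Agent.T2h96.SM
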