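import Pool.Agent.T2h96.SM.Stm
import Pool.Agent.T2h96.SN.T_R1

/-!
# Task X1: the product of the residue fields
-/

set_option autoImplicit false

namespace Pool.Agent.T2h96.SM.X1

open Matrix Pool.Agent.T2h61.PR Pool.Agent.T2h96.SN

/-- conjugation of all the elementary matrices at one place -/
lemma conj_cy {n : ℕ} [NeZero n] {F : Type} [Field F] (D : (Mn n F)ˣ) (k : Fin n) (c w : F)
    (hc : c ≠ 0) (h : (D : Mn n F) * cy k c * ((D⁻¹ : (Mn n F)ˣ) : Mn n F) = cy k w) (a : F) :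
    (D : Mn n F) * cy k a * ((D⁻¹ : (Mn n F)ˣ) : Mn n F) = cy k (a * w / c) := by
  have e1 : ∀ b : F, (cy k b : Mn n F) = 1 + (b / c) • (cy k c - 1) := by
    intro b
    unfold cy
    rw [add_sub_cancel_left, Matrix.smul_single, smul_eq_mul, div_mul_cancel₀ _ hc]
  have e2 : (cy k (a * w / c) : Mn n F) = 1 + (a / c) • (cy k w - 1) := by
    unfold cy
    rw [add_sub_cancel_left, Matrix.smul_single, smul_eq_mul]
    congr 2
    ring
  rw [e2, ← h, e1 a, mul_add, add_mul, mul_one, Units.mul_inv, mul_smul_comm, smul_mul_assoc,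
    mul_sub, sub_mul, mul_one, Units.mul_inv]

end Pool.Agent.T2h96.SM.X1

namespace Pool.Agent.T2h96.SM

open Matrix Pool.Agent.T2h61.PR Pool.Agent.T2h96.SN Pool.Agent.T2h96.SN.R1

theorem t_X1 (hNFS : S_NFS) : S_X1 := by
  classical
  intro n _ hn ι _ Λ _ x κ hx
  haveI : Fintype ι := Fintype.ofFinite ι
  -- one permutation and one choice of the elements
  let P : ℕ → Equiv.Perm (Fin n) × (Fin n → ι) → Prop := fun B π =>
    ∃ (ℓ : ℕ) (_ : Fact ℓ.Prime) (f : Λ →* SLn n (ZMod ℓ)), B < ℓ ∧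
      ∃ (g : (Mn n (ZMod ℓ))ˣ) (c ζ : ι → ZMod ℓ), (∀ k, κ (π.2 k) = π.1 k ∧ c (π.2 k) ≠ 0) ∧
      ∀ t, (f (x t) : Mn n (ZMod ℓ)) =
      ζ t • ((g : Mn n (ZMod ℓ)) * cy (π.1.symm (κ t)) (c t) *
        ((g⁻¹ : (Mn n (ZMod ℓ))ˣ) : Mn n (ZMod ℓ)))
  have hP : ∃ π, ∀ B, P B π := by
    by_contra hcon
    push Not at hcon
    choose Bf hBf using hcon
    obtain ⟨ℓ, hℓ, f, hB, π, g, c, ζ, hc, h⟩ := hx (Finset.univ.sup Bf)
    choose e he using hc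
    exact hBf (π, e) ⟨ℓ, hℓ, f,
      lt_of_le_of_lt (Finset.le_sup (f := Bf) (Finset.mem_univ (π, e))) hB, g, c, ζ, he, h⟩
  obtain ⟨⟨π, e⟩, hπ⟩ := hP
  have hκ : ∀ k, κ (e k) = π k := by
    obtain ⟨ℓ, hℓ, f, hB, g, c, ζ, hc, h⟩ := hπ 0
    exact fun k => (hc k).1
  -- the standard weights
  have hQ : ∀ B : ℕ, ∃ (ℓ : ℕ) (_ : Fact ℓ.Prime) (f : Λ →* SLn n (ZMod ℓ)) (τ : ZMod ℓ)
      (c ζ : ι → ZMod ℓ), B < ℓ ∧ τ ≠ 0 ∧ (∀ k, c (e k) = wt τ k) ∧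
      ∀ t, (f (x t) : Mn n (ZMod ℓ)) = ζ t • cy (π.symm (κ t)) (c t) := by
    intro B
    obtain ⟨ℓ, hℓ, f, hB, g, c, ζ, hc, h⟩ := hπ B
    have hprod : ∏ k, c (e k) ≠ 0 := Finset.prod_ne_zero_iff.2 fun k _ => (hc k).2
    obtain ⟨D, hD⟩ := hNFS n (ZMod ℓ) (fun k => c (e k)) (wt (∏ k, c (e k))) (fun k => (hc k).2) (by
      intro k
      unfold wt
      split_ifs
      · exact hprod
      · exact one_ne_zero) (by rw [prod_wt])
    refine ⟨ℓ, hℓ, conj (g * D⁻¹) f, ∏ k, c (e k),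
      fun t => c t * wt (∏ k, c (e k)) (π.symm (κ t)) / c (e (π.symm (κ t))), ζ, hB, hprod,
      fun k => ?_, fun t => ?_⟩
    · show c (e k) * wt (∏ k, c (e k)) (π.symm (κ (e k))) / c (e (π.symm (κ (e k)))) = _
      rw [hκ, Equiv.symm_apply_apply, mul_div_assoc, mul_div_cancel₀]
      exact (hc k).2
    show (((g * D⁻¹)⁻¹ : (Mn n (ZMod ℓ))ˣ) : Mn n (ZMod ℓ)) * (f (x t) : Mn n (ZMod ℓ)) *
      ((g * D⁻¹ : (Mn n (ZMod ℓ))ˣ) : Mn n (ZMod ℓ)) = _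
    rw [h t, ← X1.conj_cy D (π.symm (κ t)) _ _ (hc _).2 (hD _) (c t), mul_smul_comm, smul_mul_assoc]
    congr 1
    have : ((g * D⁻¹)⁻¹ : (Mn n (ZMod ℓ))ˣ) = D * g⁻¹ := by group
    rw [this, Units.val_mul, Units.val_mul]
    simp only [mul_assoc]
    rw [← mul_assoc ((g⁻¹ : (Mn n (ZMod ℓ))ˣ) : Mn n (ZMod ℓ)) (g : Mn n (ZMod ℓ)),
      Units.inv_mul, one_mul, ← mul_assoc ((g⁻¹ : (Mn n (ZMod ℓ))ˣ) : Mn n (ZMod ℓ))
      (g : Mn n (ZMod ℓ)), Units.inv_mul, one_mul]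
  choose ℓ hℓ f τ c ζ hB hτ hc h using hQ
  have hw : ∀ k, (wt (n := n) τ k : ∀ B, ZMod (ℓ B)) = fun B => wt (τ B) k := by
    intro k
    funext B
    unfold wt
    split_ifs <;> rfl
  refine ⟨∀ B, ZMod (ℓ B), inferInstance, ⟨?_⟩, fun t => π.symm (κ t), τ, fun t B => c B t,
    piSL f, ?_, fun k => ⟨e k, ?_, ?_⟩, fun t B => ζ B t, fun t => ?_⟩
  · intro a b hab
    have h1 := congrFun hab (a + b)
    simp only [Pi.natCast_apply] at h1
    have ha : a < ℓ (a + b) := lt_of_le_of_lt (Nat.le_add_right a b) (hB (a + b))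
    have hb : b < ℓ (a + b) := lt_of_le_of_lt (Nat.le_add_left b a) (hB (a + b))
    have h2 := congrArg ZMod.val h1
    rwa [ZMod.val_natCast_of_lt ha, ZMod.val_natCast_of_lt hb] at h2
  · rw [Pi.isUnit_iff]
    exact fun B => isUnit_iff_ne_zero.2 (hτ B)
  · show π.symm (κ (e k)) = k
    rw [hκ, Equiv.symm_apply_apply]
  · rw [hw]
    funext B
    exact hc B k
  · ext i j B
    have h1 : (f B (x t) : Mn n (ZMod (ℓ B))) i j = ζ B t * cy (π.symm (κ t)) (c B t) i j := by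
      rw [h B t]; rfl
    show (f B (x t) : Mn n (ZMod (ℓ B))) i j = _
    rw [h1]
    simp only [Matrix.smul_apply, smul_eq_mul, Pi.mul_apply]
    congr 1
    simp only [cy, Matrix.add_apply, Pi.add_apply, Matrix.one_apply, Matrix.single_apply]
    split_ifs <;> simp

end Pool.Agent.T2h96.SM
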