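import Pool.Agent.T2h96.SM.Stm
import Pool.Agent.T2h61.PR.T_CA

/-!
# Task X3: rationality
-/

set_option autoImplicit false

namespace Pool.Agent.T2h96.SM

open Matrix Pool.Agent.T2h61.PR Pool.Agent.T2h96.SN

namespace X3

theorem trace_two {n : ℕ} {K : Type} [CommRing K] (i j : Fin n) (h : i ≠ j) (a b : K) :
    ((Matrix.transvection i j a * Matrix.transvection j i b : Mn n K)).trace = n + a * b := by
  unfold Matrix.transvection
  rw [mul_add, add_mul, add_mul, Matrix.one_mul, Matrix.mul_one, Matrix.one_mul,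
    Matrix.single_mul_single_same, Matrix.trace_add, Matrix.trace_add, Matrix.trace_add,
    Matrix.trace_one, Matrix.trace_single_eq_of_ne _ _ _ h,
    Matrix.trace_single_eq_of_ne _ _ _ h.symm, Matrix.trace_single_eq_same, Fintype.card_fin]
  ring

variable {n : ℕ} {Λ : Type} [Group Λ]

/-- images of transvections under a ring homomorphism -/
theorem map_trans {K L : Type} [CommRing K] [CommRing L] (φ : K →+* L) {ρ : Λ →* SLn n K} {l : Λ}
    {i j : Fin n} {a : K} (h : (ρ l : Mn n K) = transvection i j a) :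
    (((Matrix.SpecialLinearGroup.map (n := Fin n) φ).comp ρ) l : Mn n L) =
      transvection i j (φ a) := by
  have e : (((Matrix.SpecialLinearGroup.map (n := Fin n) φ).comp ρ) l : Mn n L) =
      (ρ l : Mn n K).map φ := rfl
  rw [e, h]
  ext p q
  simp only [Matrix.transvection, Matrix.map_apply, Matrix.add_apply, Matrix.one_apply,
    Matrix.single_apply]
  split_ifs <;> simp

theorem inv_trans {K : Type} [CommRing K] {ρ : Λ →* SLn n K} {l : Λ}
    {i j : Fin n} (hij : i ≠ j) {a : K} (h : (ρ l : Mn n K) = transvection i j a) :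
    (ρ l⁻¹ : Mn n K) = transvection i j (-a) := by
  have h2 : (ρ l : Mn n K) * (transvection i j (-a) : Mn n K) = 1 := by
    rw [h, Matrix.transvection_mul_transvection_same _ _ hij, add_neg_cancel,
      Matrix.transvection_zero]
  have h3 : (ρ l⁻¹ : Mn n K) * (ρ l : Mn n K) = 1 := by
    have h4 : ρ l⁻¹ * ρ l = 1 := by
      rw [← map_mul, inv_mul_cancel, map_one]
    exact congrArg Subtype.val h4
  calc (ρ l⁻¹ : Mn n K) = (ρ l⁻¹ : Mn n K) * ((ρ l : Mn n K) * (transvection i j (-a))) := by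
        rw [h2, Matrix.mul_one]
    _ = _ := by rw [← Matrix.mul_assoc, h3, Matrix.one_mul]

theorem pow_trans {K : Type} [CommRing K] {ρ : Λ →* SLn n K} {l : Λ}
    {i j : Fin n} (hij : i ≠ j) {a : K} (h : (ρ l : Mn n K) = transvection i j a) (m : ℕ) :
    (ρ (l ^ m) : Mn n K) = transvection i j ((m : K) * a) := by
  induction m with
  | zero =>
    rw [pow_zero, map_one, Nat.cast_zero, zero_mul, Matrix.transvection_zero]
    rfl
  | succ m ih =>
    rw [pow_succ, map_mul, Matrix.SpecialLinearGroup.coe_mul, ih, h,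
      Matrix.transvection_mul_transvection_same _ _ hij]
    congr 1
    push_cast
    ring

theorem range_inf {K : Type} [Field K] [CharZero K] {ρ : Λ →* SLn n K} {l : Λ}
    {i j : Fin n} (hij : i ≠ j) {a : K} (ha : a ≠ 0)
    (h : (ρ l : Mn n K) = transvection i j a) : (Set.range ρ).Infinite := by
  refine Set.infinite_of_injective_forall_mem (f := fun m : ℕ => ρ (l ^ m)) ?_
    (fun m => ⟨_, rfl⟩)
  intro m m' hmm
  have h1 : (ρ (l ^ m) : Mn n K) = (ρ (l ^ m') : Mn n K) := congrArg Subtype.val hmm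
  rw [pow_trans hij h, pow_trans hij h] at h1
  have h2 := congrFun (congrFun h1 i) j
  simp only [Matrix.transvection, Matrix.add_apply, Matrix.one_apply_ne hij,
    Matrix.single_apply_same, zero_add] at h2
  exact_mod_cast mul_right_cancel₀ ha h2

theorem key (hCT : S_CT) (hn : 3 ≤ n) (hFG : Group.FG Λ) (hFQ : SameFQ Λ (SLn n ℤ)) {K : Type}
    [Field K] [CharZero K] {ρ : Λ →* SLn n K} {l0 : Λ} {i0 j0 : Fin n} (h0 : i0 ≠ j0) {w : K}
    (hw : w ≠ 0) (hl0 : (ρ l0 : Mn n K) = transvection i0 j0 w) {i j : Fin n} (hij : i ≠ j)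
    {a b : K} (ha : a ∈ Jq ρ i j) (hb : b ∈ Jq ρ j i) : ∃ r : ℚ, a * b = r := by
  obtain ⟨l₁, h₁⟩ := ha
  obtain ⟨l₂, h₂⟩ := hb
  refine CA.rational K (a * b) fun Ω _ φ₁ φ₂ => ?_
  haveI : CharZero Ω := charZero_of_injective_ringHom φ₁.injective
  have htr : ∀ φ : K →+* Ω, (((Matrix.SpecialLinearGroup.map (n := Fin n) φ).comp ρ)
      (l₁ * l₂) : Mn n Ω).trace = n + φ (a * b) := by
    intro φ
    rw [map_mul, Matrix.SpecialLinearGroup.coe_mul, map_trans φ h₁, map_trans φ h₂,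
      trace_two i j hij, map_mul]
  have htr' : ∀ φ : K →+* Ω, (((Matrix.SpecialLinearGroup.map (n := Fin n) φ).comp ρ)
      (l₁ * l₂)⁻¹ : Mn n Ω).trace = n + φ (a * b) := by
    intro φ
    rw [_root_.mul_inv_rev, map_mul, Matrix.SpecialLinearGroup.coe_mul,
      inv_trans hij.symm (map_trans φ h₂), inv_trans hij (map_trans φ h₁),
      trace_two j i hij.symm, map_mul]
    ring
  have hinf : ∀ φ : K →+* Ω, (Set.range ((Matrix.SpecialLinearGroup.map (n := Fin n) φ).comp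
      ρ)).Infinite := fun φ =>
    range_inf h0 (by rwa [ne_eq, map_eq_zero]) (map_trans φ hl0)
  rcases hCT n hn Λ hFG hFQ Ω _ _ (hinf φ₁) (hinf φ₂) (l₁ * l₂) with h | h
  · rw [htr, htr] at h
    exact add_left_cancel h
  · rw [htr, htr'] at h
    exact add_left_cancel h

theorem rat_div {K : Type} [Field K] [CharZero K] {x y z : K} (hx : ∃ r : ℚ, x = r)
    (hy : ∃ r : ℚ, y = r) (hy0 : y ≠ 0) (h : z * y = x) : ∃ r : ℚ, z = r := by
  obtain ⟨r, hr⟩ := hx
  obtain ⟨s, hs⟩ := hy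
  refine ⟨r / s, ?_⟩
  rw [Rat.cast_div, ← hr, ← hs, eq_div_iff hy0, h]

end X3

theorem t_X3 : S_CT → S_JL → S_X3 := by
  intro hCT hJL n _ hn ι Λ _ hFG hFQ x κ K _ _ τ c ρ hτ hCX
  obtain ⟨hC1, ζ, hC2⟩ := hCX
  obtain ⟨-, -, hJ⟩ := hJL n hn Λ K ρ
  have hc : ∀ t, c t ∈ Jp ρ (κ t + 1) (κ t) := fun t => ⟨x t, ζ t, hC2 t⟩
  have hne : ∀ k : Fin n, k + 1 ≠ k := by
    intro k h
    have h1 : (1 : Fin n) = 0 := by
      have := congrArg (fun y => y - k) h
      simpa using this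
    have h2 := congrArg Fin.val h1
    rw [Fin.val_one', Nat.mod_eq_of_lt (by omega)] at h2
    simp at h2
  obtain ⟨hJ1, hJ2⟩ := hJ τ (fun k => by
    obtain ⟨t, ht1, ht2⟩ := hC1 k
    have := hc t
    rwa [ht1, ht2] at this)
  have hqp : ∀ (i j : Fin n) (a : K), a ∈ Jq ρ i j → a ∈ Jp ρ i j := by
    rintro i j a ⟨l, hl⟩
    exact ⟨l, 1, by rw [hl, one_smul]⟩
  have hww : ∀ i j : Fin n, ww τ i j ≠ 0 := by
    intro i j
    unfold ww
    split_ifs
    · exact hτ
    · exact one_ne_zero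
  -- a transvection of infinite order
  obtain ⟨l0, hl0⟩ := hJ2 (0 + 1 : Fin n) 0 (hne 0) _ (hJ1 _ _ (hne 0))
  have hkey : ∀ (i j : Fin n), i ≠ j → ∀ a ∈ Jq ρ i j, ∀ b ∈ Jq ρ j i, ∃ r : ℚ, a * b = r :=
    fun i j hij a ha b hb => X3.key hCT hn hFG hFQ (hne 0) (mul_ne_zero (hww _ _) hτ) hl0 hij ha hb
  -- the two products
  have h2 : ∀ t, (∃ r : ℚ, (c t * ww τ (κ t) (κ t + 1)) * τ ^ 2 = r) ∧
      ∃ r : ℚ, (c t * ww τ (κ t) (κ t + 1)) * τ ^ 3 = r := by
    intro t
    have e1 := hJ2 _ _ (hne (κ t)) _ (hc t)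
    have e2 := hJ2 _ _ (hne (κ t)).symm _ (hJ1 _ _ (hne (κ t)).symm)
    have e3 := hJ2 _ _ (hne (κ t)).symm _ (hqp _ _ _ e2)
    obtain ⟨r, hr⟩ := hkey _ _ (hne (κ t)) _ e1 _ e2
    obtain ⟨s, hs⟩ := hkey _ _ (hne (κ t)) _ e1 _ e3
    exact ⟨⟨r, by rw [← hr]; ring⟩, ⟨s, by rw [← hs]; ring⟩⟩
  have hwt : ∀ k : Fin n, wt τ k * ww τ k (k + 1) = τ := by
    intro k
    unfold wt ww
    by_cases hk : k + 1 = 0
    · have : ¬ k < k + 1 := by
        rw [hk]
        exact not_lt_bot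
      rw [if_pos hk, if_neg this, mul_one]
    · have : k < k + 1 := by
        rw [Fin.lt_def, Fin.val_add, Fin.val_one', Nat.mod_eq_of_lt (show 1 < n by omega)]
        have h1 := k.2
        by_cases h3 : k.val + 1 < n
        · rw [Nat.mod_eq_of_lt h3]
          omega
        · exfalso
          apply hk
          apply Fin.ext
          rw [Fin.val_add, Fin.val_one', Nat.mod_eq_of_lt (show 1 < n by omega)]
          have : k.val + 1 = n := by omega
          rw [this, Nat.mod_self]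
          simp
      rw [if_neg hk, if_pos this, one_mul]
  obtain ⟨t0, ht1, ht2⟩ := hC1 0
  obtain ⟨f1, f2⟩ := h2 t0
  rw [ht2, ht1, hwt] at f1 f2
  have hτr : ∃ r : ℚ, τ = r :=
    X3.rat_div f2 f1 (mul_ne_zero hτ (pow_ne_zero _ hτ)) (by ring)
  refine ⟨hτr, fun t => ?_⟩
  obtain ⟨s, hs⟩ := hτr
  refine X3.rat_div (h2 t).1 (y := ww τ (κ t) (κ t + 1) * τ ^ 2) ?_
    (mul_ne_zero (hww _ _) (pow_ne_zero _ hτ)) (by ring)
  unfold ww
  split_ifs
  · exact ⟨s * s ^ 2, by rw [hs]; push_cast; ring⟩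
  · exact ⟨s ^ 2, by rw [hs]; push_cast; ring⟩

end Pool.Agent.T2h96.SM
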