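import Pool.Agent.T2h96.SM.Stm

/-!
# Project SM, task X4
-/

set_option autoImplicit false

namespace Pool.Agent.T2h96.SM

open Matrix Pool.Agent.T2h61.PR Pool.Agent.T2h96.SN

namespace X4

lemma succ_ne {n : ℕ} [NeZero n] (hn : 3 ≤ n) (k : Fin n) : k + 1 ≠ k := by
  intro h
  have h1 : (1 : Fin n) = 0 := by
    have := congrArg (fun t => -k + t) h
    simpa using this
  have h2 := congrArg Fin.val h1
  rw [Fin.val_one', Fin.val_zero, Nat.mod_eq_of_lt (by omega)] at h2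
  omega

lemma det_cy {n : ℕ} [NeZero n] (hn : 3 ≤ n) {A : Type} [CommRing A] (k : Fin n) (c : A) :
    (cy k c).det = 1 :=
  Matrix.det_transvection_of_ne _ _ (succ_ne hn k) c

lemma cy_diag {n : ℕ} [NeZero n] (hn : 3 ≤ n) {A : Type} [CommRing A] (k i : Fin n) (c : A) :
    cy k c i i = 1 := by
  have : ¬ (k + 1 = i ∧ k = i) := fun h => succ_ne hn k (h.1.trans h.2.symm)
  simp [cy, this]

lemma cy_map {n : ℕ} [NeZero n] {A B : Type} [CommRing A] [CommRing B] (j : A →+* B) (k : Fin n)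
    (c : A) : (cy k c).map j = cy k (j c) := by
  ext a b
  simp only [Matrix.map_apply, cy, Matrix.add_apply, map_add, Matrix.one_apply, Matrix.single_apply]
  split_ifs <;> simp

lemma wt_map {n : ℕ} [NeZero n] {A B : Type} [CommRing A] [CommRing B] (j : A →+* B) (k : Fin n)
    (c : A) : j (wt c k) = wt (j c) k := by
  unfold wt
  split_ifs <;> simp

end X4

theorem t_X4 : S_PER → S_X4 := by
  intro hPER n _ hn ι Λ _ x κ hx hperf K _ _ τ c ρ hτ hCX ⟨r₀, hr₀⟩ hr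
  choose r hr using hr
  obtain ⟨hw, ζ, hζ⟩ := hCX
  let j : ℚ →+* K := Rat.castHom K
  have hj : Function.Injective j := Rat.cast_injective
  have hjr : ∀ t, j (r t) = c t := fun t => (hr t).symm
  have hj0 : j r₀ = τ := hr₀.symm
  obtain ⟨ρ', hρ'⟩ := hPER n (by omega) ι Λ x hx hperf ℚ K j hj ρ fun t =>
    ⟨ζ t, ⟨cy (κ t) (r t), X4.det_cy hn _ _⟩, by
      show (ρ (x t) : Mn n K) = ζ t • ((cy (κ t) (r t)).map j)
      rw [hζ t, X4.cy_map, hjr]⟩
  have hent : ∀ l a b, j ((ρ' l : Mn n ℚ) a b) = (ρ l : Mn n K) a b := by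
    intro l a b
    rw [← hρ' l]
    rfl
  refine ⟨r₀, r, ρ', ?_, ?_, fun t => (ρ' (x t) : Mn n ℚ) 0 0, fun t => ?_⟩
  · rintro rfl
    rw [map_zero] at hj0
    exact hτ hj0.symm
  · intro k
    obtain ⟨t, ht, ht'⟩ := hw k
    refine ⟨t, ht, hj ?_⟩
    rw [hjr, X4.wt_map, hj0, ht']
  · have h0 : j ((ρ' (x t) : Mn n ℚ) 0 0) = ζ t := by
      rw [hent, hζ t, Matrix.smul_apply, X4.cy_diag hn, smul_eq_mul, mul_one]
    ext a b
    apply hj
    rw [hent, hζ t, Matrix.smul_apply, Matrix.smul_apply, smul_eq_mul, smul_eq_mul, map_mul, h0,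
      ← hjr t, ← X4.cy_map, Matrix.map_apply]

end Pool.Agent.T2h96.SM
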