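import Pool.Agent.T2h96.SM.Stm
import Pool.Agent.T2h61.PR.T_TOP
import Pool.Agent.T2h61.PR.T_INF

/-!
# Task X5: integrality
-/

set_option autoImplicit false

namespace Pool.Agent.T2h96.SM

open Matrix Pool.Agent.T2h61.PR Pool.Agent.T2h96.SN

namespace X5

theorem trace_two {n : ℕ} {K : Type} [Field K] (i j : Fin n) (h : i ≠ j) (s t : K) :
    ((Matrix.transvection i j s * Matrix.transvection j i t : Mn n K)).trace = n + s * t := by
  unfold Matrix.transvection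
  rw [mul_add, add_mul, add_mul, Matrix.one_mul, Matrix.mul_one, Matrix.one_mul,
    Matrix.single_mul_single_same, Matrix.trace_add, Matrix.trace_add, Matrix.trace_add,
    Matrix.trace_one, Matrix.trace_single_eq_of_ne _ _ _ h,
    Matrix.trace_single_eq_of_ne _ _ _ h.symm, Matrix.trace_single_eq_same, Fintype.card_fin]
  ring

theorem z_pow {n : ℕ} {z : ℚ} {M : SLn n ℚ} {i j : Fin n} (hij : i ≠ j) {a : ℚ}
    (h : (M : Mn n ℚ) = z • (transvection i j a : Mn n ℚ)) : z ^ n = 1 := by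
  have h1 : (M : Mn n ℚ).det = 1 := M.2
  rw [h, Matrix.det_smul, Matrix.det_transvection_of_ne i j hij] at h1
  simpa using h1

theorem z_norm {n : ℕ} (hn : n ≠ 0) {z : ℚ} (h : z ^ n = 1) (p : ℕ) [Fact p.Prime] :
    ‖((z : ℚ) : ℚ_[p])‖ = 1 := by
  have h1 : ‖((z : ℚ) : ℚ_[p])‖ ^ n = 1 := by
    rw [← norm_pow, ← Rat.cast_pow, h]
    simp
  exact (pow_eq_one_iff_of_nonneg (norm_nonneg _) hn).1 h1

end X5

theorem t_X5 : S_CT → S_PAD → S_INF → S_X5 := by
  rintro hCT hPAD hINF n hn Λ _ hFG hFQ ρ hinf i j hij a ⟨l1, z1, hl1⟩ b ⟨l2, z2, hl2⟩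
  have hden : (a * b).den = 1 := by
    by_contra hne
    obtain ⟨p, hp, hdvd⟩ := Nat.exists_prime_and_dvd hne
    haveI : Fact p.Prime := ⟨hp⟩
    let κ : ℚ →+* ℚ_[p] := algebraMap ℚ ℚ_[p]
    let ρ₁ : Λ →* SLn n ℚ_[p] := (Matrix.SpecialLinearGroup.map (n := Fin n) κ).comp ρ
    obtain ⟨ρ', hρ'⟩ := hPAD n (by omega) Λ hFG hFQ p
    let ρ₂ : Λ →* SLn n ℚ_[p] :=
      (Matrix.SpecialLinearGroup.map (n := Fin n) (PadicInt.Coe.ringHom (p := p))).comp ρ'
    have hinf1 : (Set.range ρ₁).Infinite := by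
      have h1 : Set.range ρ₁ = (Matrix.SpecialLinearGroup.map (n := Fin n) κ) '' Set.range ρ := by
        rw [← Set.range_comp]
        rfl
      rw [h1]
      exact hinf.image (Function.Injective.injOn (sl_map_inj κ κ.injective))
    have hinf2 : (Set.range ρ₂).Infinite := by
      intro hfin
      apply hINF n p (by omega) Λ ρ' hρ'
      refine (hfin.image (Matrix.SpecialLinearGroup.toGL (n := Fin n) (R := ℚ_[p]))).subset ?_
      rintro _ ⟨l, rfl⟩
      refine ⟨ρ₂ l, ⟨l, rfl⟩, ?_⟩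
      apply Units.ext
      rfl
    have htr0 : (ρ (l1 * l2) : Mn n ℚ).trace = z1 * z2 * (n + a * b) := by
      rw [map_mul, Matrix.SpecialLinearGroup.coe_mul, hl1, hl2, Matrix.smul_mul, Matrix.mul_smul,
        smul_smul, Matrix.trace_smul, X5.trace_two i j hij a b, smul_eq_mul]
    have htr : (ρ₁ (l1 * l2) : Mn n ℚ_[p]).trace = κ (z1 * z2 * (n + a * b)) := by
      rw [← htr0]
      exact (AddMonoidHom.map_trace κ.toAddMonoidHom (ρ (l1 * l2) : Mn n ℚ)).symm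
    have hint : ∀ l, ‖(ρ₂ l : Mn n ℚ_[p]).trace‖ ≤ 1 := by
      intro l
      have e : (ρ₂ l : Mn n ℚ_[p]).trace = (((ρ' l : Mn n ℤ_[p]).trace : ℤ_[p]) : ℚ_[p]) := by
        have := (AddMonoidHom.map_trace (PadicInt.Coe.ringHom (p := p)).toAddMonoidHom
          (ρ' l : Mn n ℤ_[p]))
        exact this.symm
      rw [e]
      exact PadicInt.norm_le_one _
    have hnorm : ‖κ (z1 * z2 * (n + a * b))‖ ≤ 1 := by
      rw [← htr]
      rcases hCT n hn Λ hFG hFQ ℚ_[p] ρ₁ ρ₂ hinf1 hinf2 (l1 * l2) with h | h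
      · rw [h]; exact hint _
      · rw [h]; exact hint _
    have hz1 : ‖κ z1‖ = 1 := X5.z_norm (by omega) (X5.z_pow hij hl1) p
    have hz2 : ‖κ z2‖ = 1 := X5.z_norm (by omega) (X5.z_pow hij.symm hl2) p
    have hnorm2 : ‖(n : ℚ_[p]) + κ (a * b)‖ ≤ 1 := by
      rw [map_mul, map_mul, norm_mul, norm_mul, hz1, hz2, one_mul, one_mul, map_add,
        map_natCast] at hnorm
      exact hnorm
    have hn1 : ‖(n : ℚ_[p])‖ ≤ 1 := by
      have := Padic.norm_int_le_one (p := p) (n : ℤ)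
      rwa [Int.cast_natCast] at this
    have hle : ‖κ (a * b)‖ ≤ 1 := by
      have e : κ (a * b) = ((n : ℚ_[p]) + κ (a * b)) + (-(n : ℚ_[p])) := by ring
      rw [e]
      refine (Padic.nonarchimedean _ _).trans (max_le hnorm2 ?_)
      rw [norm_neg]
      exact hn1
    have h3 : ‖((a * b : ℚ) : ℚ_[p])‖ ≤ 1 := hle
    have h4 := PadicInt.isUnit_den (a * b) h3
    rw [PadicInt.isUnit_iff] at h4
    have h5 : ‖(((a * b).den : ℤ) : ℤ_[p])‖ < 1 := by
      rw [PadicInt.norm_int_lt_one_iff_dvd]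
      exact_mod_cast hdvd
    have h6 : (((a * b).den : ℤ) : ℤ_[p]) = ((a * b).den : ℤ_[p]) := by simp
    rw [h6, h4] at h5
    exact lt_irrefl _ h5
  refine ⟨(a * b).num, ?_⟩
  nth_rw 1 [← Rat.num_div_den (a * b)]
  rw [hden]
  simp

end Pool.Agent.T2h96.SM
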