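import Pool.Agent.T2h96.SM.Stm

/-!
# Task XA (helper31): lattices
-/

set_option autoImplicit false

namespace Pool.Agent.T2h96.SM

namespace XA

/-- a nonzero subgroup `J` of `ℚ` with `J w ⊆ ℤ`, `w ≠ 0`, is cyclic -/
theorem gen (J : Set ℚ) (h0 : (0 : ℚ) ∈ J) (ha : ∀ a ∈ J, ∀ b ∈ J, a + b ∈ J)
    (hn : ∀ a ∈ J, -a ∈ J) (hne : ∃ w ∈ J, w ≠ 0) (w : ℚ) (hw : w ≠ 0)
    (hJ : ∀ a ∈ J, ∃ k : ℤ, a * w = k) :
    ∃ α ∈ J, α ≠ 0 ∧ ∀ a ∈ J, ∃ k : ℤ, a = k * α := by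
  let A : AddSubgroup ℤ :=
    { carrier := {m : ℤ | ∃ a ∈ J, a * w = m}
      zero_mem' := ⟨0, h0, by simp⟩
      add_mem' := by
        rintro x y ⟨a, ha1, ha2⟩ ⟨b, hb1, hb2⟩
        exact ⟨a + b, ha a ha1 b hb1, by push_cast; rw [add_mul, ha2, hb2]⟩
      neg_mem' := by
        rintro x ⟨a, ha1, ha2⟩
        exact ⟨-a, hn a ha1, by push_cast; rw [neg_mul, ha2]⟩ }
  obtain ⟨g, hg⟩ := Int.subgroup_cyclic A
  have hgA : g ∈ A := by
    rw [hg]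
    exact AddSubgroup.subset_closure rfl
  obtain ⟨α, hα, hαw⟩ := hgA
  have hall : ∀ a ∈ J, ∃ k : ℤ, a = k * α := by
    intro a haJ
    obtain ⟨m, hm⟩ := hJ a haJ
    have hmA : m ∈ A := ⟨a, haJ, hm⟩
    rw [hg, AddSubgroup.mem_closure_singleton] at hmA
    obtain ⟨k, hk⟩ := hmA
    refine ⟨k, ?_⟩
    have h1 : a * w = (k * α) * w := by
      rw [hm, ← hk, mul_assoc, hαw]
      push_cast
      simp
    exact mul_right_cancel₀ hw h1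
  refine ⟨α, hα, ?_, hall⟩
  intro h
  obtain ⟨v, hv, hv0⟩ := hne
  obtain ⟨k, hk⟩ := hall v hv
  rw [h, mul_zero] at hk
  exact hv0 hk

end XA

open XA in
theorem t_XA : S_XA := by
  intro n _ J hgrp hne hmul hint
  have h1 : ∀ j : Fin n, ∃ α : ℚ, α ≠ 0 ∧ (j ≠ 0 → α ∈ J 0 j ∧ ∀ a ∈ J 0 j, ∃ k : ℤ, a = k * α) ∧
      (j = 0 → α = 1) := by
    intro j
    by_cases hj : j = 0
    · exact ⟨1, one_ne_zero, fun h => absurd hj h, fun _ => rfl⟩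
    · have hj' : (0 : Fin n) ≠ j := fun h => hj h.symm
      obtain ⟨g0, g1, g2⟩ := hgrp 0 j hj'
      obtain ⟨w, hw, hw0⟩ := hne j 0 hj
      obtain ⟨α, hα, hα0, hall⟩ := gen (J 0 j) g0 g1 g2 (hne 0 j hj') w hw0
        (fun a ha => hint 0 j hj' a ha w hw)
      exact ⟨α, hα0, fun _ => ⟨hα, hall⟩, fun h => absurd h hj⟩
  choose u hu0 hu1 hu2 using h1
  have hu00 : u 0 = 1 := hu2 0 rfl
  refine ⟨u, hu0, ?_, ?_⟩
  · intro i j hij a ha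
    by_cases hj : j = 0
    · subst hj
      obtain ⟨k, hk⟩ := hint 0 i (fun h => hij h.symm) (u i) (hu1 i hij).1 a ha
      exact ⟨k, by rw [hu00, div_one, hk]⟩
    · by_cases hi : i = 0
      · subst hi
        obtain ⟨k, hk⟩ := (hu1 j hj).2 a ha
        refine ⟨k, ?_⟩
        rw [hu00, one_mul, hk, mul_div_assoc, div_self (hu0 j), mul_one]
      · have h2 := hmul 0 i j (fun h => hi h.symm) hij (fun h => hj h.symm) (u i) (hu1 i hi).1 a ha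
        obtain ⟨k, hk⟩ := (hu1 j hj).2 _ h2
        refine ⟨k, ?_⟩
        rw [hk, mul_div_assoc, div_self (hu0 j), mul_one]
  · intro j hj
    refine ⟨u j, (hu1 j hj).1, ?_⟩
    rw [hu00, one_mul, div_self (hu0 j)]

end Pool.Agent.T2h96.SM
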