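import Pool.Agent.T2h96.SM.Stm

/-! # Task XB: the conclusion over the rational numbers -/

set_option autoImplicit false

namespace Pool.Agent.T2h96.SM

open Matrix Pool.Agent.T2h61.PR Pool.Agent.T2h96.SN

namespace XB

theorem succ_ne {n : ℕ} [NeZero n] (hn : 3 ≤ n) (k : Fin n) : k + 1 ≠ k := by
  intro h
  have h1 : (1 : Fin n) = 0 := by
    have h2 : k + 1 = k + 0 := by rw [h, add_zero]
    exact add_left_cancel h2
  have h3 := congrArg Fin.val h1
  rw [Fin.val_one', Fin.val_zero, Nat.mod_eq_of_lt (by omega)] at h3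
  omega

theorem cy_eq {n : ℕ} [NeZero n] {A : Type} [CommRing A] (k : Fin n) (c : A) :
    cy k c = Matrix.transvection (k + 1) k c := rfl

/-- conjugation by an invertible matrix -/
def conjSL {n : ℕ} {A : Type} [CommRing A] (U V : Mn n A) (h : V * U = 1) : SLn n A →* SLn n A where
  toFun M := ⟨U * (M : Mn n A) * V, by
    rw [Matrix.det_mul, Matrix.det_mul, M.2, mul_one, ← Matrix.det_mul,
      mul_eq_one_comm.1 h, Matrix.det_one]⟩
  map_one' := by
    apply Subtype.ext
    show U * (1 : Mn n A) * V = 1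
    rw [mul_one, mul_eq_one_comm.1 h]
  map_mul' M N := by
    apply Subtype.ext
    show U * ((M : Mn n A) * (N : Mn n A)) * V = (U * (M : Mn n A) * V) * (U * (N : Mn n A) * V)
    calc U * ((M : Mn n A) * (N : Mn n A)) * V = U * (M : Mn n A) * 1 * (N : Mn n A) * V := by
          simp only [mul_assoc, mul_one]
      _ = _ := by
          rw [← h]
          simp only [mul_assoc]

theorem conj_tr {n : ℕ} (u : Fin n → ℚ) (hu : ∀ i, u i ≠ 0) (i j : Fin n) (z a : ℚ) :
    Matrix.diagonal u * (z • Matrix.transvection i j a) * Matrix.diagonal (fun i => (u i)⁻¹) =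
      z • Matrix.transvection i j (u i * a / u j) := by
  ext p q
  rw [Matrix.mul_diagonal, Matrix.diagonal_mul, Matrix.smul_apply, Matrix.smul_apply]
  unfold Matrix.transvection
  rw [Matrix.add_apply, Matrix.add_apply, Matrix.one_apply, smul_eq_mul, smul_eq_mul]
  by_cases hpq : p = q
  · subst hpq
    by_cases h : i = p ∧ j = p
    · obtain ⟨h1, h2⟩ := h
      subst h1
      subst h2
      simp only [if_true, Matrix.single_apply_same]
      field_simp [hu]
    · have e1 : ∀ b : ℚ, Matrix.single i j b p p = 0 := fun b =>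
        Matrix.single_apply_of_ne _ _ _ _ _ h
      rw [e1, e1, if_pos rfl]
      field_simp [hu]
  · by_cases h : i = p ∧ j = q
    · obtain ⟨h1, h2⟩ := h
      subst h1
      subst h2
      simp only [Matrix.single_apply_same]
      rw [if_neg hpq]
      field_simp [hu]
      ring
    · have e1 : ∀ b : ℚ, Matrix.single i j b p q = 0 := fun b =>
        Matrix.single_apply_of_ne _ _ _ _ _ h
      rw [e1, e1, if_neg hpq]
      ring

theorem tr_same {n : ℕ} {A : Type} [CommRing A] (i j p : Fin n) (h : i ≠ j) (a : A) :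
    Matrix.transvection i j a p p = 1 := by
  unfold Matrix.transvection
  rw [Matrix.add_apply, Matrix.one_apply_eq, Matrix.single_apply_of_ne, add_zero]
  rintro ⟨h1, h2⟩
  exact h (h1.trans h2.symm)

theorem tr_off {n : ℕ} {A : Type} [CommRing A] (i j : Fin n) (h : i ≠ j) (a : A) :
    Matrix.transvection i j a i j = a := by
  unfold Matrix.transvection
  rw [Matrix.add_apply, Matrix.one_apply_ne h, Matrix.single_apply_same, zero_add]

theorem Jq_sub {n : ℕ} {Λ : Type} [Group Λ] {R : Type} [CommRing R] (ρ : Λ →* SLn n R)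
    (i j : Fin n) (a : R) (h : a ∈ Jq ρ i j) : a ∈ Jp ρ i j := by
  obtain ⟨l, hl⟩ := h
  exact ⟨l, 1, by rw [hl, one_smul]⟩

/-- integral matrices: from a scalar multiple of a transvection over `ℚ` to one over `ℤ` -/
theorem desc {n : ℕ} (M : SLn n ℤ) (z : ℚ) (i j : Fin n) (h : i ≠ j) (c : ℤ)
    (hM : ((M : Mn n ℤ).map (Int.castRingHom ℚ)) = z • Matrix.transvection i j (c : ℚ)) :
    (M : Mn n ℤ) = (M : Mn n ℤ) i i • Matrix.transvection i j c := by
  have hz : (((M : Mn n ℤ) i i : ℤ) : ℚ) = z := by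
    have h1 := congrFun (congrFun hM i) i
    rw [Matrix.map_apply, Matrix.smul_apply, tr_same i j i h, smul_eq_mul, mul_one] at h1
    exact h1
  ext p q
  have h1 := congrFun (congrFun hM p) q
  rw [Matrix.map_apply, Matrix.smul_apply, smul_eq_mul, ← hz] at h1
  have h2 : Matrix.transvection i j (c : ℚ) p q = ((Matrix.transvection i j c p q : ℤ) : ℚ) := by
    unfold Matrix.transvection
    rw [Matrix.add_apply, Matrix.add_apply, Matrix.one_apply, Matrix.one_apply]
    by_cases h3 : i = p ∧ j = q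
    · obtain ⟨h4, h5⟩ := h3
      subst h4
      subst h5
      rw [Matrix.single_apply_same, Matrix.single_apply_same, if_neg h, if_neg h]
      push_cast
      rfl
    · rw [Matrix.single_apply_of_ne _ _ _ _ _ h3, Matrix.single_apply_of_ne _ _ _ _ _ h3]
      split_ifs <;> simp
  rw [h2] at h1
  rw [Matrix.smul_apply, smul_eq_mul]
  have h6 : (((M : Mn n ℤ) p q : ℤ) : ℚ) =
      (((M : Mn n ℤ) i i * Matrix.transvection i j c p q : ℤ) : ℚ) := by
    push_cast
    exact h1
  exact_mod_cast h6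

end XB

open XB in
theorem t_XB : S_JL → S_PER → S_UT → S_XA → S_XB := by
  intro hJL hPER hUT hXA n _ hn ι Λ _ x κ hgen hperf τ c ρ hτ hCX hint
  obtain ⟨hwt, ζ, hζ⟩ := hCX
  obtain ⟨hJ1, hJ2, hJ3⟩ := hJL n hn Λ ℚ ρ
  have hsucc := succ_ne (n := n) hn
  have hcJ : ∀ t, c t ∈ Jp ρ (κ t + 1) (κ t) := fun t => ⟨x t, ζ t, hζ t⟩
  have hwJ : ∀ k : Fin n, wt τ k ∈ Jp ρ (k + 1) k := by
    intro k
    obtain ⟨t, h1, h2⟩ := hwt k
    rw [← h2, ← h1]
    exact hcJ t
  obtain ⟨hJ4, -⟩ := hJ3 τ hwJ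
  have hww : ∀ i j : Fin n, ww τ i j ≠ 0 := by
    intro i j
    unfold ww
    split_ifs
    · exact hτ
    · exact one_ne_zero
  obtain ⟨u, hu0, hu1, hu2⟩ := hXA n (Jp ρ) hJ1 (fun i j hij => ⟨_, hJ4 i j hij, hww i j⟩)
    (fun i j k h1 h2 h3 a ha b hb => Jq_sub ρ i k _ (hJ2 i j k h1 h2 h3 a ha b hb)) hint
  have hVU : Matrix.diagonal (fun i => (u i)⁻¹) * Matrix.diagonal u = (1 : Mn n ℚ) := by
    rw [Matrix.diagonal_mul_diagonal, ← Matrix.diagonal_one]
    congr 1
    funext i
    exact inv_mul_cancel₀ (hu0 i)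
  set ρD : Λ →* SLn n ℚ := (conjSL _ _ hVU).comp ρ with hρD
  have hD : ∀ (l : Λ) (z a : ℚ) (i j : Fin n), (ρ l : Mn n ℚ) = z • Matrix.transvection i j a →
      (ρD l : Mn n ℚ) = z • Matrix.transvection i j (u i * a / u j) := by
    intro l z a i j hl
    show Matrix.diagonal u * (ρ l : Mn n ℚ) * Matrix.diagonal (fun i => (u i)⁻¹) = _
    rw [hl, conj_tr u hu0]
  have hc' : ∀ t, ∃ k : ℤ, u (κ t + 1) * c t / u (κ t) = k := fun t =>
    hu1 _ _ (hsucc _) _ (hcJ t)
  choose c' hc' using hc'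
  have hDx : ∀ t, (ρD (x t) : Mn n ℚ) = ζ t • Matrix.transvection (κ t + 1) (κ t) ((c' t : ℤ) : ℚ) := by
    intro t
    rw [← hc' t]
    exact hD (x t) (ζ t) (c t) _ _ (hζ t)
  have hmap : ∀ (i j : Fin n) (b : ℤ), (Matrix.transvection i j b).map (Int.castRingHom ℚ) =
      Matrix.transvection i j (b : ℚ) := by
    intro i j b
    ext p q
    unfold Matrix.transvection
    rw [Matrix.map_apply, Matrix.add_apply, Matrix.add_apply, map_add, Matrix.one_apply,
      Matrix.one_apply]
    congr 1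
    · split_ifs <;> simp
    · by_cases h3 : i = p ∧ j = q
      · obtain ⟨h4, h5⟩ := h3
        subst h4
        subst h5
        rw [Matrix.single_apply_same, Matrix.single_apply_same]
        rfl
      · rw [Matrix.single_apply_of_ne _ _ _ _ _ h3, Matrix.single_apply_of_ne _ _ _ _ _ h3,
          map_zero]
  obtain ⟨ρ', hρ'⟩ := hPER n (by omega) ι Λ x hgen hperf ℤ ℚ (Int.castRingHom ℚ)
    (RingHom.injective_int _) ρD (fun t => ⟨ζ t, tr (κ t + 1) (κ t) (hsucc _) (c' t), by
      rw [hDx t]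
      show _ = ζ t • ((Matrix.transvection (κ t + 1) (κ t) (c' t)).map (Int.castRingHom ℚ))
      rw [hmap]⟩)
  have hρ'2 : ∀ l, ((ρ' l : Mn n ℤ).map (Int.castRingHom ℚ)) = (ρD l : Mn n ℚ) := by
    intro l
    rw [← hρ' l]
    rfl
  have hxt : ∀ t, (ρ' (x t) : Mn n ℤ) = (ρ' (x t) : Mn n ℤ) (κ t + 1) (κ t + 1) •
      Matrix.transvection (κ t + 1) (κ t) (c' t) := by
    intro t
    exact desc (ρ' (x t)) (ζ t) _ _ (hsucc _) (c' t) ((hρ'2 (x t)).trans (hDx t))
  obtain ⟨hK1, hK2, hK3⟩ := hJL n hn Λ ℤ ρ'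
  -- the claim
  have hone : ∀ k : Fin n, (1 : ℤ) ∈ Jp ρ' (k + 1) k := by
    intro k
    obtain ⟨hz, hadd, hneg⟩ := hK1 (k + 1) k (hsucc k)
    let B : AddSubgroup ℤ :=
      { carrier := Jp ρ' (k + 1) k
        zero_mem' := hz
        add_mem' := fun {a b} ha hb => hadd a ha b hb
        neg_mem' := fun {a} ha => hneg a ha }
    obtain ⟨β, hβ⟩ := Int.subgroup_cyclic B
    by_cases hβ1 : β.natAbs = 1
    · have h1 : β ∈ B := by
        rw [hβ]
        exact AddSubgroup.subset_closure rfl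
      rcases Int.natAbs_eq β with h2 | h2
      · rw [hβ1] at h2
        rw [h2] at h1
        exact h1
      · rw [hβ1] at h2
        have h3 := B.neg_mem h1
        rw [h2] at h3
        have h4 : (1 : ℤ) ∈ B := by simpa using h3
        exact h4
    · exfalso
      obtain ⟨p, hp, hpβ⟩ := Nat.exists_prime_and_dvd hβ1
      have : Fact p.Prime := ⟨hp⟩
      have hdiv : ∀ a ∈ B, (p : ℤ) ∣ a := by
        intro a ha
        rw [hβ, AddSubgroup.mem_closure_singleton] at ha
        obtain ⟨m, hm⟩ := ha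
        rw [← hm, smul_eq_mul]
        exact Dvd.dvd.mul_left (Int.natCast_dvd.2 hpβ) m
      have hUT1 := hUT n hn ι Λ x κ hgen hperf (ZMod p) (fun t => ((c' t : ℤ) : ZMod p))
        (fun t => (((ρ' (x t) : Mn n ℤ) (κ t + 1) (κ t + 1) : ℤ) : ZMod p))
        ((Matrix.SpecialLinearGroup.map (n := Fin n) (Int.castRingHom (ZMod p))).comp ρ')
        (fun t => by
          show (ρ' (x t) : Mn n ℤ).map (Int.castRingHom (ZMod p)) = _
          rw [hxt t]
          ext a b
          rw [Matrix.map_apply, Matrix.smul_apply, Matrix.smul_apply, smul_eq_mul, smul_eq_mul,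
            map_mul, ← hxt t]
          congr 1
          rw [cy_eq]
          unfold Matrix.transvection
          rw [Matrix.add_apply, Matrix.add_apply, map_add, Matrix.one_apply, Matrix.one_apply]
          congr 1
          · split_ifs <;> simp
          · by_cases h3 : κ t + 1 = a ∧ κ t = b
            · obtain ⟨h4, h5⟩ := h3
              subst h4
              subst h5
              rw [Matrix.single_apply_same, Matrix.single_apply_same]
              rfl
            · rw [Matrix.single_apply_of_ne _ _ _ _ _ h3,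
                Matrix.single_apply_of_ne _ _ _ _ _ h3, map_zero])
        k (fun t ht => by
          have h1 : c' t ∈ B := by
            show c' t ∈ Jp ρ' (k + 1) k
            rw [← ht]
            exact ⟨x t, _, hxt t⟩
          exact (ZMod.intCast_zmod_eq_zero_iff_dvd _ _).2 (hdiv _ h1))
      -- a matrix with equal entries at `(0,0)` and `(0,j)`
      have hj0 : (1 : Fin n) ≠ 0 := by
        have h := hsucc 0
        rwa [zero_add] at h
      obtain ⟨a, ⟨l, z, hl⟩, ha⟩ := hu2 1 hj0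
      have h1 := hD l z a 0 1 hl
      rw [ha, ← hρ'2 l] at h1
      have h2 := congrFun (congrFun h1 0) 0
      have h3 := congrFun (congrFun h1 0) 1
      rw [Matrix.map_apply, Matrix.smul_apply, tr_same 0 1 0 hj0.symm, smul_eq_mul, mul_one] at h2
      rw [Matrix.map_apply, Matrix.smul_apply, tr_off 0 1 hj0.symm, smul_eq_mul, mul_one,
        ← h2] at h3
      have h4 : (ρ' l : Mn n ℤ) 0 1 = (ρ' l : Mn n ℤ) 0 0 := RingHom.injective_int (Int.castRingHom ℚ) h3
      have h5 := hUT1 l
      have h6 : ∀ p' q' : Fin n, (((ρ' l : Mn n ℤ) p' q' : ℤ) : ZMod p) = (1 : Mn n (ZMod p)) p' q' := by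
        intro p' q'
        have h7 := congrArg (fun M : SLn n (ZMod p) => (M : Mn n (ZMod p)) p' q') h5
        exact h7
      have h8 := h6 0 1
      rw [h4, h6 0 0, Matrix.one_apply_eq, Matrix.one_apply_ne hj0.symm] at h8
      exact one_ne_zero h8
  obtain ⟨hL1, hL2⟩ := hK3 1 (fun k => by
    have h1 : wt (1 : ℤ) k = 1 := by
      unfold wt
      split_ifs <;> rfl
    rw [h1]
    exact hone k)
  refine ⟨ρ', fun i j h => ?_⟩
  have h1 := hL1 i j h
  have h2 : ww (1 : ℤ) i j = 1 := by
    unfold ww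
    split_ifs <;> rfl
  rw [h2] at h1
  obtain ⟨l, hl⟩ := hL2 i j h 1 h1
  refine ⟨l, ?_⟩
  apply Subtype.ext
  rw [hl, one_mul]
  rfl

end Pool.Agent.T2h96.SM
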