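import Pool.Agent.T2h96.SN.JOR
import Pool.Agent.T2h96.SN.NFC
import Pool.Agent.T2h96.SN.NFS
import Pool.Agent.T2h96.SN.T_ABEL
import Pool.Agent.T2h96.SN.T_ADJ
import Pool.Agent.T2h96.SN.T_CL
import Pool.Agent.T2h96.SN.T_CLD
import Pool.Agent.T2h96.SN.T_CLE
import Pool.Agent.T2h96.SN.T_CLG
import Pool.Agent.T2h96.SN.T_CLK
import Pool.Agent.T2h96.SN.T_CLN
import Pool.Agent.T2h96.SN.T_CLP
import Pool.Agent.T2h96.SN.T_CLR
import Pool.Agent.T2h96.SN.T_CLV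
import Pool.Agent.T2h96.SN.T_CT
import Pool.Agent.T2h96.SN.T_DIM
import Pool.Agent.T2h96.SN.T_EL
import Pool.Agent.T2h96.SN.T_FIXV
import Pool.Agent.T2h96.SN.T_IN1
import Pool.Agent.T2h96.SN.T_IN2
import Pool.Agent.T2h96.SN.T_IN3
import Pool.Agent.T2h96.SN.T_INJ
import Pool.Agent.T2h96.SN.T_NF
import Pool.Agent.T2h96.SN.T_NFA
import Pool.Agent.T2h96.SN.T_NFB
import Pool.Agent.T2h96.SN.T_NIL
import Pool.Agent.T2h96.SN.T_PERF
import Pool.Agent.T2h96.SN.T_PRA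
import Pool.Agent.T2h96.SN.T_PROG
import Pool.Agent.T2h96.SN.T_RED
import Pool.Agent.T2h96.SN.T_SPA
import Pool.Agent.T2h96.SM.T_CHZ
import Pool.Agent.T2h96.SM.T_CYC
import Pool.Agent.T2h96.SM.T_INX
import Pool.Agent.T2h96.SM.T_JL
import Pool.Agent.T2h96.SM.T_MAX
import Pool.Agent.T2h96.SM.T_NFX
import Pool.Agent.T2h96.SM.T_PER
import Pool.Agent.T2h96.SM.T_SIG
import Pool.Agent.T2h96.SM.T_SMO
import Pool.Agent.T2h96.SM.T_TXA
import Pool.Agent.T2h96.SM.T_TXB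
import Pool.Agent.T2h96.SM.T_TXC
import Pool.Agent.T2h96.SM.T_TXP
import Pool.Agent.T2h96.SM.T_UT
import Pool.Agent.T2h96.SM.T_VEC
import Pool.Agent.T2h96.SM.T_X1
import Pool.Agent.T2h96.SM.T_X3
import Pool.Agent.T2h96.SM.T_X4
import Pool.Agent.T2h96.SM.T_X5
import Pool.Agent.T2h96.SM.T_XA
import Pool.Agent.T2h96.SM.T_XB
import Pool.Agent.T2h61.PR.T_PAD
import Pool.Agent.T2h61.PR.T_INF
import Pool.Agent.T2h61.PR.T_UNI

/-!
# Assembly of the theorem for families of subgroups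
-/

set_option autoImplicit false

namespace Pool.Agent.T2h96.SM

open Pool.Agent.T2h61.PR Pool.Agent.T2h96.SN

theorem m_NF : S_NF := t_NF (t_NFA (t_DIM t_FIXV)) (t_NFB t_FIXV) t_NFC

theorem m_CLV : S_CLV := t_CLV (t_DIM t_FIXV) t_CLP t_CLG

theorem m_CL : S_CL :=
  t_CL (t_CLE uni) t_CLP m_CLV t_CLK m_NF (t_CLN t_ADJ) (t_CLR t_NFS) t_CLD

theorem m_RED : S_RED := t_RED t_SPA

theorem m_CT : S_CT := t_CT m_RED m_CL

theorem m_EL : S_EL := t_EL m_RED m_CL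

theorem m_INJ : S_INJ := t_INJ t_IN1 t_IN2 t_IN3

theorem m_PROG : S_PROG := t_PROG t_PRA

theorem m_NFX : S_NFX := t_NFX (t_VEC t_FIXV) (t_SIG t_FIXV) t_CYC

theorem m_TXP : S_TXP :=
  t_TXP t_JOR (t_TXA m_NFX t_NIL) (t_TXB t_NIL) (t_TXC t_NIL (t_ABEL uni) t_JOR)

theorem m_INX : S_INX := t_INX m_TXP t_SMO m_PROG m_EL m_INJ inf

theorem m_MAX : S_MAX :=
  t_MAX (t_X1 t_NFS) t_CHZ t_PERF t_JL (t_X3 m_CT t_JL) (t_X4 t_PER) (t_X5 m_CT pad inf)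
    (t_XB t_JL t_PER t_UT t_XA) m_INX

end Pool.Agent.T2h96.SM
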