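import Pool.Agent.T2h96.SN.Stm

/-!
# Profinite rigidity of `SL (n, ℤ)` and cyclic families of nilpotent subgroups: families of subgroups

Theorem: `Λ` finitely generated residually finite, with the finite quotients of `SL (n, ℤ)`, `n ≥ 3`,
generated by `n` subgroups such that any `n - 1` of them generate a group with nilpotent image in
every finite quotient of `Λ` (for instance a nilpotent group), and one of these groups is not
periodic. Then `Λ ≃* SL (n, ℤ)`.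

Generalisation of T2h96/SN from `n` elements to `n` subsets: a family `x : ι → Λ` of generators with
colours `κ : ι → Fin n`. Most tasks are adaptations of the finished tasks of SN.
-/

set_option autoImplicit false

namespace Pool.Agent.T2h96.SM

open Matrix Pool.Agent.T2h61.PR Pool.Agent.T2h96.SN

/-- the elements of the colours `≠ i` generate a nilpotent group, for every colour `i` -/
def NilCol {n : ℕ} {ι G : Type} [Group G] (x : ι → G) (κ : ι → Fin n) : Prop :=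
  ∀ i, Group.IsNilpotent (Subgroup.closure (x '' {t | κ t ≠ i}))

/-! ## Part N -/

/-- (VEC, 100 lines; takes `S_FIXV`) a basis `b` with `a t b i = b i` for `κ t ≠ i`.
Proof. FIXV (`V = Fin n → F`, `U = ⊥`) for `P i` gives `v i ≠ 0` fixed by `P i`. Not all `a t` fix
`v i`; let `a (t i)` move `v i`; then `κ (t i) = i` (otherwise `a (t i) ∈ P i`). Independence: apply
`a (t j) - 1` to `∑ α i • v i = 0`: it kills `v i` for `i ≠ j`, so `α j = 0`. `n` independent vectors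
are a basis. -/
def S_VEC : Prop := ∀ (n ℓ : ℕ) [Fact ℓ.Prime] (F : Type) [Field F] [Finite F] [CharP F ℓ]
  (ι : Type), 2 ≤ n → ∀ (a : ι → (Mn n F)ˣ) (κ : ι → Fin n) (P : Fin n → Subgroup (Mn n F)ˣ),
  (∀ i, ∀ g ∈ P i, ∃ k : ℕ, g ^ ℓ ^ k = 1) → (∀ i t, κ t ≠ i → a t ∈ P i) →
  (∀ v : Fin n → F, (∀ t, (a t : Mn n F) *ᵥ v = v) → v = 0) →
  ∃ b : Module.Basis (Fin n) F (Fin n → F), ∀ i t, κ t ≠ i → (a t : Mn n F) *ᵥ b i = b i

/-- (SIG, 200 lines; takes `S_FIXV`; adapt T2h96/SN/T_NFB.lean) `a t` moves `b (κ t)` by a multiple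
of one basis vector. Proof. `a t b (κ t) = b (κ t) + ∑ k, c k t • b k`. For every `j` there are `t`,
`k` with `κ t = j`, `c k t ≠ 0` (otherwise `b j` is fixed by all `a t`). Call `s : Fin n → Fin n` a
choice if for all `j` there is `t` with `κ t = j` and `c (s j) t ≠ 0`. A nonempty `T` closed under a
choice `s` is everything: otherwise let `i ∉ T`, `H` = closure of the `a t`, `κ t ∈ T` (in `P i`),
`U = span {b j | j ∉ T}`: FIXV gives `v = ∑ α j • b j ∉ U` with `a t v - v ∈ U` for `κ t ∈ T`, i.e.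
`α j * c k t = 0` for `j = κ t ∈ T`, `k ∈ T`. Some `α j ≠ 0`, `j ∈ T`; with `k = s j` this is a
contradiction. So every choice is surjective (its range is closed), bijective, and two choices
differing at one `j` only agree, so `c k t ≠ 0` implies `k = s (κ t)`. -/
def S_SIG : Prop := ∀ (n ℓ : ℕ) [Fact ℓ.Prime] (F : Type) [Field F] [Finite F] [CharP F ℓ]
  (ι : Type), 2 ≤ n → ∀ (a : ι → (Mn n F)ˣ) (κ : ι → Fin n) (P : Fin n → Subgroup (Mn n F)ˣ),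
  (∀ i, ∀ g ∈ P i, ∃ k : ℕ, g ^ ℓ ^ k = 1) → (∀ i t, κ t ≠ i → a t ∈ P i) →
  (∀ v : Fin n → F, (∀ t, (a t : Mn n F) *ᵥ v = v) → v = 0) →
  ∀ b : Module.Basis (Fin n) F (Fin n → F), (∀ i t, κ t ≠ i → (a t : Mn n F) *ᵥ b i = b i) →
  ∃ (s : Fin n → Fin n) (c : ι → F),
    (∀ t, (a t : Mn n F) *ᵥ b (κ t) = b (κ t) + c t • b (s (κ t))) ∧
    (∀ j, ∃ t, κ t = j ∧ c t ≠ 0) ∧
    (∀ T : Set (Fin n), T.Nonempty → (∀ t ∈ T, s t ∈ T) → T = Set.univ)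

/-- (CYC, 80 lines; adapt T2h96/SN/NFC.lean) `s` is one cycle, in the order `π`; `g` has the columns
`b (π k)`. -/
def S_CYC : Prop := ∀ (n : ℕ) [NeZero n] (F : Type) [Field F], 2 ≤ n →
  ∀ (b : Module.Basis (Fin n) F (Fin n → F)) (s : Fin n → Fin n),
    (∀ T : Set (Fin n), T.Nonempty → (∀ t ∈ T, s t ∈ T) → T = Set.univ) →
  ∃ (π : Equiv.Perm (Fin n)) (g : (Mn n F)ˣ), (∀ k, s (π k) = π (k + 1)) ∧
    ∀ k, (g : Mn n F) *ᵥ (Pi.single k 1) = b (π k)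

/-- (NFX, 120 lines; takes `S_VEC`, `S_SIG`, `S_CYC`) the normal form.
Proof. `a t` and `g * cy k (c t) * g⁻¹`, `k = π.symm (κ t)`, agree on all `b (π i) = g e_i`. -/
def S_NFX : Prop := ∀ (n ℓ : ℕ) [NeZero n] [Fact ℓ.Prime] (F : Type) [Field F] [Finite F]
  [CharP F ℓ] (ι : Type), 2 ≤ n → ∀ (a : ι → (Mn n F)ˣ) (κ : ι → Fin n)
  (P : Fin n → Subgroup (Mn n F)ˣ),
  (∀ i, ∀ g ∈ P i, ∃ k : ℕ, g ^ ℓ ^ k = 1) → (∀ i t, κ t ≠ i → a t ∈ P i) →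
  (∀ v : Fin n → F, (∀ t, (a t : Mn n F) *ᵥ v = v) → v = 0) →
  ∃ (π : Equiv.Perm (Fin n)) (g : (Mn n F)ˣ) (c : ι → F), (∀ k, ∃ t, κ t = π k ∧ c t ≠ 0) ∧
    ∀ t, (a t : Mn n F) =
      (g : Mn n F) * cy (π.symm (κ t)) (c t) * ((g⁻¹ : (Mn n F)ˣ) : Mn n F)

/-! ## Part T -/

/-- (TXA, 150 lines; takes `S_NFX`, `S_NIL`; adapt T2h96/SN/TYA.lean) case 1.
Proof. Any two `t, t'` have colours different from some `i` (`n ≥ 3`), so `a t` and `b t'` commute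
(NIL (1) in the finite nilpotent group `H i` generated by the `y t`, `κ t ≠ i`). `P i` = closure of
the `ℓ`-elements of `H i` (NIL (2)), NFX for the `a t`. Every `b t` commutes with all `a t'`; for
every `k` there is `t'` with `κ t' = π k`, `c t' ≠ 0`, so `g⁻¹ * b t * g` commutes with all
`single (k+1) k 1`, so it is scalar. -/
def S_TXA : Prop := ∀ (n ℓ : ℕ) [NeZero n] [Fact ℓ.Prime] (F : Type) [Field F] [Finite F]
  [CharP F ℓ] (ι : Type), 3 ≤ n → ∀ (y a b : ι → SLn n F) (κ : ι → Fin n), NilCol y κ →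
  (∀ t, a t ∈ Subgroup.zpowers (y t)) → (∀ t, b t ∈ Subgroup.zpowers (y t)) →
  (∀ t, y t = a t * b t) → (∀ t, ∃ k : ℕ, a t ^ ℓ ^ k = 1) → (∀ t, (orderOf (b t)).Coprime ℓ) →
  (∀ v : Fin n → F, (∀ t, (a t : Mn n F) *ᵥ v = v) → v = 0) →
  ∃ (π : Equiv.Perm (Fin n)) (g : (Mn n F)ˣ) (c ζ : ι → F), (∀ k, ∃ t, κ t = π k ∧ c t ≠ 0) ∧
    ∀ t, (y t : Mn n F) =
      ζ t • ((g : Mn n F) * cy (π.symm (κ t)) (c t) * ((g⁻¹ : (Mn n F)ˣ) : Mn n F))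

/-- (TXB, 60 lines; takes `S_NIL`; adapt T2h96/SN/TYB.lean) the space of the common fixed vectors of
the `a t` is invariant, so `0` or everything. -/
def S_TXB : Prop := ∀ (n ℓ : ℕ) [Fact ℓ.Prime] (F : Type) [Field F] [Finite F] [CharP F ℓ]
  (ι : Type), 3 ≤ n → ∀ (y a b : ι → SLn n F) (κ : ι → Fin n), NilCol y κ →
  Subgroup.closure (Set.range y) = ⊤ →
  (∀ t, a t ∈ Subgroup.zpowers (y t)) → (∀ t, b t ∈ Subgroup.zpowers (y t)) →
  (∀ t, y t = a t * b t) → (∀ t, ∃ k : ℕ, a t ^ ℓ ^ k = 1) → (∀ t, (orderOf (b t)).Coprime ℓ) →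
  (∀ v : Fin n → F, (∀ t, (a t : Mn n F) *ᵥ v = v) → v = 0) ∨ ∀ t, a t = 1

/-- (TXC, 80 lines; takes `S_NIL`, `S_ABEL`, `S_JOR`; adapt T2h96/SN/T_TYC.lean) case 2. -/
def S_TXC : Prop := ∀ (n ℓ : ℕ) [Fact ℓ.Prime] (F : Type) [Field F] [Finite F] [CharP F ℓ]
  (ι : Type), 3 ≤ n → ∀ (y : ι → SLn n F) (κ : ι → Fin n), NilCol y κ →
  Subgroup.closure (Set.range y) = ⊤ → (∀ t, (orderOf (y t)).Coprime ℓ) →
  ∀ t, ∀ r : ℕ, r.Prime → r ∣ orderOf (y t) → r ≤ n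

/-- the normal form of the images of the generators, up to scalars -/
def NFormX {n : ℕ} [NeZero n] {ι Λ : Type} [Group Λ] {F : Type} [Field F] (x : ι → Λ)
    (κ : ι → Fin n) (f : Λ →* SLn n F) : Prop :=
  ∃ (π : Equiv.Perm (Fin n)) (g : (Mn n F)ˣ) (c ζ : ι → F), (∀ k, ∃ t, κ t = π k ∧ c t ≠ 0) ∧
    ∀ t, (f (x t) : Mn n F) =
      ζ t • ((g : Mn n F) * cy (π.symm (κ t)) (c t) * ((g⁻¹ : (Mn n F)ˣ) : Mn n F))

/-- (TXP, 60 lines; takes `S_JOR`, `S_TXA`, `S_TXB`, `S_TXC`; adapt T2h96/SN/TYP.lean) -/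
def S_TXP : Prop := ∀ (n ℓ : ℕ) [NeZero n] [Fact ℓ.Prime], 3 ≤ n → ∀ (ι Λ : Type) [Group Λ]
  (x : ι → Λ) (κ : ι → Fin n), Subgroup.closure (Set.range x) = ⊤ →
  ∀ f : Λ →* SLn n (ZMod ℓ), Function.Surjective f → NilCol (fun t => f (x t)) κ →
  NFormX x κ f ∨ ∀ t, ∀ r : ℕ, r.Prime → r ∣ orderOf (f (x t)) → r ≤ n

/-- (SMO, 120 lines) a finite nilpotent group generated by elements with smooth orders.
Proof. Let `H = closure S` and `r > n` a prime. `H` is finite nilpotent, so it is the product of its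
Sylow subgroups (`isNilpotent_of_finite_tfae`); the projection to the Sylow `r`-subgroup is a
homomorphism to an `r`-group which is trivial on `S`, so trivial, so `r` does not divide `Nat.card H`.
(Or: the normal Sylow `r`-subgroup `P` commutes with all `s ∈ S` by NIL (1), so it is central;
Schur-Zassenhaus `Subgroup.exists_right_complement'_of_coprime` gives a complement `K`, normal as
`P` is central, containing all elements of order prime to `r`, so `H = K`.) -/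
def S_SMO : Prop := ∀ (G : Type) [Group G] [Finite G] (n : ℕ) (S : Set G),
  Group.IsNilpotent (Subgroup.closure S) →
  (∀ s ∈ S, ∀ r : ℕ, r.Prime → r ∣ orderOf s → r ≤ n) →
  ∀ h ∈ Subgroup.closure S, ∀ r : ℕ, r.Prime → r ∣ orderOf h → r ≤ n

/-! ## Part R -/

/-- (CHZ, 40 lines) Proof. A prime ideal `P` not meeting the nonzero integers
(`Ideal.exists_le_prime_disjoint`), `K = FractionRing (R ⧸ P)` (see T2h96/SN/T_INTG.lean). -/
def S_CHZ : Prop := ∀ (R : Type) [CommRing R] [CharZero R], ∃ (K : Type) (_ : Field K)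
  (_ : CharZero K), Nonempty (R →+* K)

/-- cyclic form over a commutative ring: `ρ (x t)` is a scalar times `1 + c t E_{k+1,k}`,
`k = κ t`, and `wt τ k` is one of the `c t`, `κ t = k` -/
def CX {n : ℕ} [NeZero n] {ι Λ : Type} [Group Λ] {R : Type} [CommRing R] (x : ι → Λ)
    (κ : ι → Fin n) (τ : R) (c : ι → R) (ρ : Λ →* SLn n R) : Prop :=
  (∀ k, ∃ t, κ t = k ∧ c t = wt τ k) ∧
  ∃ ζ : ι → R, ∀ t, (ρ (x t) : Mn n R) = ζ t • cy (κ t) (c t)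

/-- (X1, 200 lines; takes `S_NFS`; adapt T2h96/SN/T_R1.lean) the product of the residue fields.
Proof. For every `B` choose also `e : Fin n → ι` with `κ (e k) = π k` and `c (e k) ≠ 0`. As `ι` is
finite, one pair `(π, e)` occurs for arbitrarily large `ℓ`; `κ' = π.symm ∘ κ`. NFS for the weights
`c (e k)` and `wt τ`, `τ = ∏ k, c (e k)`: `D * cy k (c (e k)) * D⁻¹ = cy k (wt τ k)`, so
`D * cy k a * D⁻¹ = cy k (a * wt τ k / c (e k))` for all `a`. `R = ∀ B, ZMod (ℓ B)` with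
`ℓ B > B`, and `τ` is a unit of `R`. -/
def S_X1 : Prop := ∀ (n : ℕ) [NeZero n], 3 ≤ n → ∀ (ι : Type) [Finite ι] (Λ : Type) [Group Λ]
  (x : ι → Λ) (κ : ι → Fin n),
  (∀ B : ℕ, ∃ (ℓ : ℕ) (_ : Fact ℓ.Prime) (f : Λ →* SLn n (ZMod ℓ)), B < ℓ ∧ NFormX x κ f) →
  ∃ (R : Type) (_ : CommRing R) (_ : CharZero R) (κ' : ι → Fin n) (τ : R) (c : ι → R)
    (ρ : Λ →* SLn n R), IsUnit τ ∧ CX x κ' τ c ρ

/-- the `a` such that a scalar multiple of `1 + a E_{i,j}` is in the range of `ρ` -/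
def Jp {n : ℕ} {Λ : Type} [Group Λ] {R : Type} [CommRing R] (ρ : Λ →* SLn n R) (i j : Fin n) :
    Set R := {a | ∃ (l : Λ) (z : R), (ρ l : Mn n R) = z • Matrix.transvection i j a}

/-- the `a` such that `1 + a E_{i,j}` is in the range of `ρ` -/
def Jq {n : ℕ} {Λ : Type} [Group Λ] {R : Type} [CommRing R] (ρ : Λ →* SLn n R) (i j : Fin n) :
    Set R := {a | ∃ l : Λ, (ρ l : Mn n R) = Matrix.transvection i j a}

/-- the weight of the cyclic path from `j` to `i` -/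
def ww {n : ℕ} {R : Type} [CommRing R] (τ : R) (i j : Fin n) : R := if i < j then τ else 1

/-- (JL, 150 lines; extract from T2h96/SN/T_R4.lean) rules for `Jp` and `Jq`. Proofs: (1)-(5) of
S_R4. -/
def S_JL : Prop := ∀ (n : ℕ) [NeZero n], 3 ≤ n → ∀ (Λ : Type) [Group Λ] (R : Type) [CommRing R]
  (ρ : Λ →* SLn n R),
  (∀ i j, i ≠ j → (0 : R) ∈ Jp ρ i j ∧ (∀ a ∈ Jp ρ i j, ∀ b ∈ Jp ρ i j, a + b ∈ Jp ρ i j) ∧
    (∀ a ∈ Jp ρ i j, -a ∈ Jp ρ i j)) ∧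
  (∀ i j k, i ≠ j → j ≠ k → i ≠ k → ∀ a ∈ Jp ρ i j, ∀ b ∈ Jp ρ j k, a * b ∈ Jq ρ i k) ∧
  (∀ τ : R, (∀ k : Fin n, wt τ k ∈ Jp ρ (k + 1) k) →
    (∀ i j, i ≠ j → ww τ i j ∈ Jp ρ i j) ∧ (∀ i j, i ≠ j → ∀ a ∈ Jp ρ i j, a * τ ∈ Jq ρ i j))

/-- (X3, 180 lines; takes `S_CT`, `S_JL`) rationality.
Proof. (A) for `i ≠ j`, `a ∈ Jq ρ i j`, `b ∈ Jq ρ j i`: `a * b` is rational. Let
`l = l₁ * l₂`, `ρ l₁ = transvection i j a`, `ρ l₂ = transvection j i b`; the traces of `ρ l` and of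
`ρ l⁻¹` are `n + a b`. For `φ₁ φ₂ : K →+* Ω`: CT for `(map φ i).comp ρ` (infinite ranges: `Jq ρ i j`
contains `ww τ i j * τ ≠ 0`; powers of such an `l`) gives `φ₁ (a b) = φ₂ (a b)`; use
`Pool.Agent.T2h61.PR.CA.rational` (T_CA.lean). (B) `k = κ t`: `c t ∈ Jp ρ (k+1) k`, so
`c t * τ ∈ Jq ρ (k+1) k`, and with `w = ww τ k (k+1)`: `w * τ, w * τ * τ ∈ Jq ρ k (k+1)`. So
`c t * w * τ^2`, `c t * w * τ^3` are rational for all `t`; for `t` with `c t = wt τ k` it is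
`c t * w = τ`, so `τ^3`, `τ^4` are rational, so `τ` is; `w ∈ {1, τ}`, so `c t` is rational. -/
def S_X3 : Prop := ∀ (n : ℕ) [NeZero n], 3 ≤ n → ∀ (ι Λ : Type) [Group Λ], Group.FG Λ →
  SameFQ Λ (SLn n ℤ) → ∀ (x : ι → Λ) (κ : ι → Fin n) (K : Type) [Field K] [CharZero K] (τ : K)
  (c : ι → K) (ρ : Λ →* SLn n K), τ ≠ 0 → CX x κ τ c ρ →
  (∃ r : ℚ, τ = r) ∧ ∀ t, ∃ r : ℚ, c t = r

/-- (PER, 120 lines; adapt T2h96/SN/T_R2.lean) a perfect group whose generators are mapped to scalar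
multiples of elements of `SLn n A` is mapped to `SLn n A`. Proof. `M = Z * H` with `Z` the scalar
matrices in `SLn n R` (central), `H` the range of `SpecialLinearGroup.map j`; `ρ` maps `Λ` to `Z H`
(`det` gives `ζ ^ n = 1`), so it maps `commutator Λ = ⊤` to `H`; `lift_sl` of T_TOP.lean. -/
def S_PER : Prop := ∀ (n : ℕ), 1 ≤ n → ∀ (ι Λ : Type) [Group Λ] (x : ι → Λ),
  Subgroup.closure (Set.range x) = ⊤ → commutator Λ = ⊤ →
  ∀ (A R : Type) [CommRing A] [CommRing R] (j : A →+* R), Function.Injective j →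
  ∀ ρ : Λ →* SLn n R, (∀ t, ∃ (ζ : R) (M : SLn n A),
    (ρ (x t) : Mn n R) = ζ • ((M : Mn n A).map j)) →
  ∃ ρ' : Λ →* SLn n A, ∀ l, Matrix.SpecialLinearGroup.map (n := Fin n) j (ρ' l) = ρ l

/-- (X4, 80 lines; takes `S_PER`) descent to `ℚ`. Proof. PER for `ℚ → K`; the scalars are diagonal
entries (`k + 1 ≠ k`), so rational. -/
def S_X4 : Prop := ∀ (n : ℕ) [NeZero n], 3 ≤ n → ∀ (ι Λ : Type) [Group Λ] (x : ι → Λ)
  (κ : ι → Fin n), Subgroup.closure (Set.range x) = ⊤ → commutator Λ = ⊤ →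
  ∀ (K : Type) [Field K] [CharZero K] (τ : K) (c : ι → K) (ρ : Λ →* SLn n K), τ ≠ 0 →
  CX x κ τ c ρ → (∃ r : ℚ, τ = r) → (∀ t, ∃ r : ℚ, c t = r) →
  ∃ (τ' : ℚ) (c' : ι → ℚ) (ρ' : Λ →* SLn n ℚ), τ' ≠ 0 ∧ CX x κ τ' c' ρ'

/-- (X5, 150 lines; takes `S_CT`, `S_PAD`, `S_INF`; see T2h96/SN/T_INTG.lean) integrality.
Proof. Let `p` be a prime; CT over `ℚ_[p]` for `ρ₁` (from `ρ`) and the `p`-adic representation `ρ₂`
of PAD. `ρ l₁ = z₁ • transvection i j a`, `ρ l₂ = z₂ • transvection j i b`; `z₁ ^ n = 1` by the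
determinant, so `z₁, z₂ ∈ {1, -1}`; the trace of `ρ (l₁ * l₂)` is `z₁ z₂ (n + a b)`, by CT it is a
trace of `ρ₂`, so in `ℤ_[p]`. So `a b` is a `p`-adic integer for all `p`. -/
def S_X5 : Prop := ∀ n : ℕ, 3 ≤ n → ∀ (Λ : Type) [Group Λ], Group.FG Λ → SameFQ Λ (SLn n ℤ) →
  ∀ ρ : Λ →* SLn n ℚ, (Set.range ρ).Infinite → ∀ i j : Fin n, i ≠ j →
  ∀ a ∈ Jp ρ i j, ∀ b ∈ Jp ρ j i, ∃ k : ℤ, a * b = k

/-- (UT, 150 lines; adapt T2h96/SN/T_R3.lean) a perfect group is mapped trivially if one colour is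
missing. Proof. Let `r a = (a - (k₀ + 1) : Fin n).val`; for `k ≠ k₀`, `r (k+1) = r k + 1`. All
`ρ (x t)` and their inverses satisfy `M i j = 0` unless `r j < r i` or `i = j`; diagonal entries are
multiplicative, then by induction on `s` the entries with `r i = r j + s` are additive, so trivial by
perfectness. (Or conjugate by the permutation matrix of `a ↦ a - (k₀ + 1)` to reduce to the last
colour, the case of T_R3.lean.) -/
def S_UT : Prop := ∀ (n : ℕ) [NeZero n], 3 ≤ n → ∀ (ι Λ : Type) [Group Λ] (x : ι → Λ)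
  (κ : ι → Fin n), Subgroup.closure (Set.range x) = ⊤ → commutator Λ = ⊤ →
  ∀ (R : Type) [CommRing R] (c ζ : ι → R) (ρ : Λ →* SLn n R),
  (∀ t, (ρ (x t) : Mn n R) = ζ t • cy (κ t) (c t)) →
  ∀ k₀ : Fin n, (∀ t, κ t = k₀ → c t = 0) → ∀ l, ρ l = 1

/-- (XA, 120 lines) lattices. Proof. `J i j` contains some `w ≠ 0`, `J j i` some `w' ≠ 0`;
`{a * w' | a ∈ J i j}` is a nonzero additive subgroup of `ℤ`, so `J i j = α i j • ℤ`,
`α i j ≠ 0`. `u 0 = 1`, `u i = α 0 i` for `i ≠ 0`. For `i, j ≠ 0`, `a ∈ J i j`: `α 0 i * a ∈ J 0 j`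
is an integer multiple of `α 0 j`. -/
def S_XA : Prop := ∀ (n : ℕ) [NeZero n] (J : Fin n → Fin n → Set ℚ),
  (∀ i j, i ≠ j → (0 : ℚ) ∈ J i j ∧ (∀ a ∈ J i j, ∀ b ∈ J i j, a + b ∈ J i j) ∧
    (∀ a ∈ J i j, -a ∈ J i j)) →
  (∀ i j, i ≠ j → ∃ w ∈ J i j, w ≠ 0) →
  (∀ i j k, i ≠ j → j ≠ k → i ≠ k → ∀ a ∈ J i j, ∀ b ∈ J j k, a * b ∈ J i k) →
  (∀ i j, i ≠ j → ∀ a ∈ J i j, ∀ b ∈ J j i, ∃ k : ℤ, a * b = k) →
  ∃ u : Fin n → ℚ, (∀ i, u i ≠ 0) ∧ (∀ i j, i ≠ j → ∀ a ∈ J i j, ∃ k : ℤ, u i * a / u j = k) ∧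
    ∀ j, j ≠ 0 → ∃ a ∈ J 0 j, u 0 * a / u j = 1

/-- (XB, 250 lines; takes `S_JL`, `S_PER`, `S_UT`, `S_XA`) conclusion over `ℚ`.
Proof. XA for `J = Jp ρ` (nonzero elements `ww τ i j`; `Jq ⊆ Jp`). `D = diagonal u`,
`ρ_D l = D * ρ l * D⁻¹`; `D * transvection i j a * D⁻¹ = transvection i j (u i * a / u j)`, so
`ρ_D (x t) = ζ t • cy (κ t) (c' t)` with integers `c' t`. PER for `ℤ → ℚ`: `ρ' : Λ →* SLn n ℤ`; the
scalars `ζ t` are diagonal entries, so integers. Claim: `1 ∈ Jp ρ' (k+1) k` for all `k`. It is a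
subgroup `β ℤ` of `ℤ` containing all `c' t`, `κ t = k`; if `β ≠ ± 1` there is a prime `p` dividing
all these `c' t`, so UT over `ZMod p` gives `ρ' l ≡ 1` modulo `p` for all `l`. But with `j ≠ 0`,
`a ∈ Jp ρ 0 j`, `u 0 * a / u j = 1`, `ρ l = z • transvection 0 j a` we get
`ρ' l = z • transvection 0 j 1`, whose entries `z` at `(0,0)` and `(0,j)` would be `1` and `0`
modulo `p`. JL for `ρ'`, `τ = 1`: `1 = ww 1 i j ∈ Jp ρ' i j`, so `1 * 1 ∈ Jq ρ' i j`. -/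
def S_XB : Prop := ∀ (n : ℕ) [NeZero n], 3 ≤ n → ∀ (ι Λ : Type) [Group Λ] (x : ι → Λ)
  (κ : ι → Fin n), Subgroup.closure (Set.range x) = ⊤ → commutator Λ = ⊤ →
  ∀ (τ : ℚ) (c : ι → ℚ) (ρ : Λ →* SLn n ℚ), τ ≠ 0 → CX x κ τ c ρ →
  (∀ i j, i ≠ j → ∀ a ∈ Jp ρ i j, ∀ b ∈ Jp ρ j i, ∃ k : ℤ, a * b = k) →
  ∃ ρ' : Λ →* SLn n ℤ, ∀ (i j : Fin n) (h : i ≠ j), ∃ l, ρ' l = tr i j h 1

/-- (INX) infinitely many primes. -/
def S_INX : Prop := ∀ (n : ℕ) [NeZero n], 3 ≤ n → ∀ (ι Λ : Type) [Group Λ] (x : ι → Λ)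
  (κ : ι → Fin n), Group.FG Λ → RF Λ → SameFQ Λ (SLn n ℤ) → Subgroup.closure (Set.range x) = ⊤ →
  (∀ (Q : Type) [Group Q] [Finite Q] (f : Λ →* Q), NilCol (fun t => f (x t)) κ) →
  (∃ i, ∃ γ ∈ Subgroup.closure (x '' {t | κ t ≠ i}), ¬ IsOfFinOrder γ) →
  ∀ B : ℕ, ∃ (ℓ : ℕ) (_ : Fact ℓ.Prime) (f : Λ →* SLn n (ZMod ℓ)), B < ℓ ∧ NFormX x κ f

/-- (MAX) the theorem. -/
def S_MAX : Prop := ∀ n : ℕ, 3 ≤ n → ∀ (Λ : Type) [Group Λ], Group.FG Λ → RF Λ →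
  SameFQ Λ (SLn n ℤ) → ∀ N : Fin n → Subgroup Λ, (⨆ i, N i) = ⊤ →
  (∀ (Q : Type) [Group Q] [Finite Q] (f : Λ →* Q) (i : Fin n),
    Group.IsNilpotent ((⨆ j ∈ ({i}ᶜ : Set (Fin n)), N j).map f)) →
  (∃ i, ∃ γ ∈ ⨆ j ∈ ({i}ᶜ : Set (Fin n)), N j, ¬ IsOfFinOrder γ) →
  Nonempty (Λ ≃* SLn n ℤ)

end Pool.Agent.T2h96.SM
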