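import Pool.Agent.T2h96.SM.Stm
import Pool.Agent.T2h96.SN.TYlem

/-! Project SM, tasks TXA, TXB, TXC: common lemmas. -/

set_option autoImplicit false

namespace Pool.Agent.T2h96.SM

open Matrix Pool.Agent.T2h61.PR Pool.Agent.T2h96.SN

namespace TX

theorem mem_H {n : ℕ} {ι G : Type} [Group G] (y : ι → G) (κ : ι → Fin n) {i : Fin n} {t : ι}
    (h : κ t ≠ i) : y t ∈ Subgroup.closure (y '' {t | κ t ≠ i}) :=
  Subgroup.subset_closure ⟨t, h, rfl⟩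

/-- all `a t` commute with all `b t'` -/
theorem comm (hNIL : S_NIL) {n ℓ : ℕ} [Fact ℓ.Prime] {ι G : Type} [Group G] [Finite G]
    (hn : 3 ≤ n) (y a b : ι → G) (κ : ι → Fin n) (hy : NilCol y κ)
    (ha : ∀ t, a t ∈ Subgroup.zpowers (y t)) (hb : ∀ t, b t ∈ Subgroup.zpowers (y t))
    (ha' : ∀ t, ∃ k : ℕ, a t ^ ℓ ^ k = 1) (hb' : ∀ t, (orderOf (b t)).Coprime ℓ) (s t : ι) :
    a s * b t = b t * a s := by
  obtain ⟨i, hij, hik⟩ := TY.third hn (κ s) (κ t)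
  exact (hNIL G (Subgroup.closure (y '' {t | κ t ≠ i})) inferInstance (hy i) ℓ (Fact.out)).1 (a s)
    (TY.zp_mem (mem_H y κ hij.symm) (ha s)) (b t) (TY.zp_mem (mem_H y κ hik.symm) (hb t)) (ha' s)
    (hb' t)

end TX

end Pool.Agent.T2h96.SM
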